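import Mathlib
import Pool.Agent.Helper584_RM.Lang

set_option autoImplicit false

/-!
# A nonreflecting stationary set above the continuum: the sentence forced

The forcing language (`fnot`, `fand`, `fall`, `fimp`, `fex`, `fground`, `meets`, `IsFun`, `WO`) is the
one of `Pool.Agent.Helper584_RM.Lang`.
-/

open Set

namespace Pool.Agent.H679NR

open Pool.Agent.Helper584.RM

section Statements

variable {P : Type} [Preorder P] {W : Type} [LinearOrder W]

/-- The set named by `C` has elements above each element of `W` below `d`, and below `d`
(`C` is unbounded in `d`). -/
def UnbBelow (C : W → Set P) (d : W) : Set P :=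
  fall fun a : W => fimp (fground (a < d))
    (fex fun b : W => fand (fground (a < b ∧ b < d)) (meets (C b)))

/-- The sequence of elements of `W` named by `S` is strictly increasing, and its limit is `c`. -/
def Ladder (S : ℕ → W → Set P) (c : W) : Set P :=
  fand (fall fun n : ℕ => fall fun a : W => fall fun b : W =>
      fimp (fand (meets (S n a)) (meets (S (n + 1) b))) (fground (a < b)))
    (fand (fall fun n : ℕ => fall fun a : W => fimp (meets (S n a)) (fground (a < c)))
      (fall fun a : W => fimp (fground (a < c))
        (fex fun n : ℕ => fex fun b : W => fand (meets (S n b)) (fground (a < b)))))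

/-- The set named by `C` is unbounded in `W`. -/
def Unb (C : W → Set P) : Set P :=
  fall fun a : W => fex fun b : W => fand (fground (a < b)) (meets (C b))

/-- The element `d` is a limit element: there are elements below `d`, and no largest one. -/
def IsLim (d : W) : Prop := (∃ a, a < d) ∧ ∀ a, a < d → ∃ b, a < b ∧ b < d

variable (P W)

/-- Each function from a proper initial segment of `W` to `W` is bounded (`W` is regular), and `W` has
no last element. -/
def Reg : Set P :=
  fand (fall fun a : W => fex fun b : W => fground (a < b))
    (fall fun a : W => fall fun F : W → W → Set P => fimp (IsFun F)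
      (fex fun b : W => fall fun x : W => fall fun y : W =>
        fimp (fand (fground (x < a)) (meets (F x y))) (fground (y < b))))

/-- No function from `W` to the Cantor space is one-to-one (`W` has more elements than the
continuum). -/
def Big : Set P :=
  fall fun X : W → ℕ → Bool → Set P => fimp (fall fun a => IsFun (X a))
    (fex fun a : W => fex fun b : W => fand (fground (a < b))
      (fall fun n : ℕ => fall fun i : Bool => fimp (meets (X a n i)) (meets (X b n i))))

/-- There is a set `E` of elements of `W` such that each element of `E` is the limit of a strictly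
increasing sequence (ladder), `E` meets every closed unbounded subset of `W`, and for every limit
element `d` there is a closed unbounded subset of `{x | x < d}` which is disjoint from `E`. -/
def NonRefl : Set P :=
  fex fun E : W → Set P =>
    fand (fex fun S : W → ℕ → W → Set P =>
        fall fun c : W => fimp (meets (E c)) (fand (IsFun (S c)) (Ladder (S c) c)))
      (fand (fall fun C : W → Set P =>
          fimp (fand (Unb C) (fall fun d : W => fimp (fand (fground (IsLim d)) (UnbBelow C d))
              (meets (C d))))
            (fex fun d : W => fand (meets (C d)) (meets (E d))))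
        (fall fun d : W => fimp (fground (IsLim d))
          (fex fun D : W → Set P => fand (UnbBelow D d)
            (fand (fall fun x : W => fimp (fand (fground (IsLim x ∧ x < d)) (UnbBelow D x))
                (meets (D x)))
              (fall fun x : W => fnot (fand (fground (x < d)) (fand (meets (D x)) (meets (E x)))))))))

/-- `W` is well-ordered and regular, has more elements than the continuum, and has a nonreflecting
stationary set of limits of countable cofinality. -/
def Phi : Set P := fand (WO P W) (fand (Reg P W) (fand (Big P W) (NonRefl P W)))

end Statements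

/-! ### The same statements in the ordinary sense -/

section Plain

variable (W : Type) [LinearOrder W]

/-- `W` has no last element, and each function from a proper initial segment to `W` is bounded. -/
def Reg₀ : Prop :=
  (∀ a : W, ∃ b, a < b) ∧ ∀ (a : W) (f : W → W), ∃ b, ∀ x, x < a → f x < b

/-- No function from `W` to the Cantor space is one-to-one. -/
def Big₀ : Prop := ∀ x : W → ℕ → Bool, ∃ a b, a < b ∧ x a = x b

/-- The set `E` is stationary, consists of limits of countable cofinality (`s c` is a ladder on
`c ∈ E`), and is nonstationary in each limit element. -/
def NonReflWith (E : W → Prop) (s : W → ℕ → W) : Prop :=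
  (∀ c, E c → (∀ n, s c n < s c (n + 1)) ∧ (∀ n, s c n < c) ∧ ∀ a, a < c → ∃ n, a < s c n) ∧
  (∀ C : W → Prop, (∀ a, ∃ b, a < b ∧ C b) →
    (∀ d, IsLim d → (∀ a, a < d → ∃ b, (a < b ∧ b < d) ∧ C b) → C d) → ∃ d, C d ∧ E d) ∧
  ∀ d, IsLim d → ∃ D : W → Prop, (∀ a, a < d → ∃ b, (a < b ∧ b < d) ∧ D b) ∧
    (∀ x, IsLim x ∧ x < d → (∀ a, a < x → ∃ b, (a < b ∧ b < x) ∧ D b) → D x) ∧
    ∀ x, x < d → D x → ¬ E x

/-- There is such a set. -/
def NonRefl₀ : Prop := ∃ (E : W → Prop) (s : W → ℕ → W), NonReflWith W E s

/-- The conjunction. -/
def Phi₀ : Prop := WO₀ W ∧ Reg₀ W ∧ Big₀ W ∧ NonRefl₀ W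

end Plain

end Pool.Agent.H679NR
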