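import Mathlib
import Pool.Agent.H679NR.Lang

set_option autoImplicit false

open Set Cardinal Filter
open scoped Topology

namespace Pool.Agent.H679NR

open Pool.Agent.Helper584.RM

theorem nr2_wf {W : Type} [LinearOrder W] (h : WO₀ W) : WellFoundedLT W :=
  ⟨WellFounded.wellFounded_iff_has_min.2 fun S hS => by
    obtain ⟨w, hw, hw2⟩ := h (fun x => x ∈ S) hS
    exact ⟨w, hw, fun x hx hlt => absurd (hw2 x hx) (not_le.2 hlt)⟩⟩

theorem nr2_large {W : Type} [LinearOrder W] [WellFoundedLT W] (h3 : Big₀ W) :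
    ∃ a : W, 𝔠 ≤ #(Iio a) := by
  have h4 : 𝔠 < #W := by
    by_contra hc
    rw [not_lt] at hc
    have h5 : #(ℕ → Bool) = 𝔠 := by simp
    rw [← h5] at hc
    obtain ⟨g⟩ := hc
    obtain ⟨a, b, hab, he⟩ := h3 g
    exact hab.ne (g.injective he)
  by_contra hc
  push Not at hc
  have h6 : (𝔠 : Cardinal.{0}).ord < Ordinal.type (α := W) (· < ·) := by
    by_contra h7
    rw [not_lt] at h7
    have h8 := Ordinal.card_le_card h7
    rw [Cardinal.card_ord, Ordinal.card_type] at h8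
    exact absurd h8 (not_le.2 h4)
  obtain ⟨a, ha⟩ := Ordinal.typein_surj (α := W) (· < ·) h6
  have h9 := hc a
  have h10 : #(Iio a) = 𝔠 := by
    have h11 := Ordinal.card_typein (r := ((· < ·) : W → W → Prop)) a
    rw [ha, Cardinal.card_ord] at h11
    exact h11.symm
  exact absurd h10 h9.ne

theorem bdd_of_card {W : Type} [LinearOrder W] (h1 : WO₀ W) (h2 : Reg₀ W) (h3 : Big₀ W) (A : Set W)
    (hA : #A ≤ 𝔠) : ∃ b, ∀ a ∈ A, a < b := by
  have := nr2_wf h1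
  obtain ⟨a, ha⟩ := nr2_large h3
  obtain ⟨e⟩ := hA.trans ha
  rcases A.eq_empty_or_nonempty with rfl | ⟨x₀, hx₀⟩
  · exact ⟨a, by simp⟩
  classical
  obtain ⟨b, hb⟩ := h2.2 a (fun x => if hx : ∃ y : A, (e y : W) = x then (hx.choose : W) else a)
  refine ⟨b, fun y hy => ?_⟩
  have h5 := hb (e ⟨y, hy⟩) (e ⟨y, hy⟩).2
  have h6 : ∃ z : A, (e z : W) = e ⟨y, hy⟩ := ⟨⟨y, hy⟩, rfl⟩
  rw [dif_pos h6] at h5
  have h7 : h6.choose = ⟨y, hy⟩ := e.injective (Subtype.ext h6.choose_spec)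
  rw [h7] at h5
  exact h5

theorem fodor {W : Type} [LinearOrder W] [WellFoundedLT W] (h : Reg₀ W)
    (hu : ∀ u : ℕ → W, ∃ b, ∀ n, u n < b) {E : W → Prop}
    (hE : ∀ C : W → Prop, (∀ a, ∃ b, a < b ∧ C b) →
      (∀ d, IsLim d → (∀ a, a < d → ∃ b, (a < b ∧ b < d) ∧ C b) → C d) → ∃ d, C d ∧ E d)
    (f : W → W) (hf : ∀ c, E c → f c < c) : ∃ x, ∀ a, ∃ c, a < c ∧ E c ∧ f c = x := by
  by_contra hcon
  push Not at hcon
  choose g hg using hcon
  obtain ⟨d, hd, hEd⟩ := hE (fun d => ∀ x, x < d → g x < d) (fun a => by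
    have hs : ∀ a, ∃ b, a < b ∧ ∀ x, x < a → g x < b := by
      intro a
      obtain ⟨b, hb⟩ := h.1 a
      obtain ⟨b', hb'⟩ := h.2 a g
      exact ⟨max b b', lt_max_of_lt_left hb, fun x hx => lt_max_of_lt_right (hb' x hx)⟩
    choose st hst1 hst2 using hs
    let u : ℕ → W := fun n => Nat.rec a (fun _ y => st y) n
    obtain ⟨d, hd, hmin⟩ : ∃ d, (∀ n, u n < d) ∧ ∀ d', (∀ n, u n < d') → d ≤ d' := by
      obtain ⟨b, hb⟩ := hu u
      have hne : {b | ∀ n, u n < b}.Nonempty := ⟨b, hb⟩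
      exact ⟨WellFounded.min (wellFounded_lt (α := W)) _ hne,
        WellFounded.min_mem (wellFounded_lt (α := W)) _ hne,
        fun d' hd' => WellFounded.min_le (wellFounded_lt (α := W)) (s := {b | ∀ n, u n < b}) hd'⟩
    refine ⟨d, hd 0, fun x hx => ?_⟩
    obtain ⟨n, hn⟩ : ∃ n, x < u n := by
      by_contra hc
      push Not at hc
      exact absurd (hmin x fun n => (hst1 (u n)).trans_le (hc (n + 1))) (not_le.2 hx)
    exact (hst2 (u n) x hn).trans (hd (n + 1))) (fun d _ hc x hx => by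
    obtain ⟨b, ⟨hxb, hbd⟩, hb⟩ := hc x hx
    exact (hb x hxb).trans hbd)
  exact hg (f d) d (hd _ (hf d hEd)) hEd rfl

end Pool.Agent.H679NR
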