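import Pool.Agent.H679NR.Lang

set_option autoImplicit false

/-!
# The forcing notion: bounded nonreflecting sets of limits of countable cofinality
-/

open Set

namespace Pool.Agent.H679NR

open Pool.Agent.Helper584.RM

variable (W : Type) [LinearOrder W]

/-- `D` is closed and unbounded in `d`, and disjoint from `s` below `d`. -/
def Avoids {W : Type} [LinearOrder W] (D s : Set W) (d : W) : Prop :=
  (∀ a, a < d → ∃ b, (a < b ∧ b < d) ∧ b ∈ D) ∧
  (∀ x, IsLim x ∧ x < d → (∀ a, a < x → ∃ b, (a < b ∧ b < x) ∧ b ∈ D) → x ∈ D) ∧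
  ∀ x, x < d → x ∈ D → x ∉ s

/-- A condition: an element `top` of `W` and a set `s` of elements below `top`, each of which is the
limit of a strictly increasing sequence, such that for every limit element `d ≤ top` there is a closed
unbounded subset of `{x | x < d}` which is disjoint from `s`. -/
structure Cond where
  /-- the length of the condition -/
  top : W
  /-- the part of the generic set below `top` -/
  s : Set W
  lt : ∀ x ∈ s, x < top
  cof : ∀ c ∈ s, ∃ l : ℕ → W, (∀ n, l n < l (n + 1)) ∧ (∀ n, l n < c) ∧ ∀ a, a < c → ∃ n, a < l n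
  nst : ∀ d, d ≤ top → IsLim d → ∃ D : Set W, Avoids D s d

variable {W}

/-- `q` extends `p` if it is longer and the two sets agree below the length of `p`. -/
instance : Preorder (Cond W) where
  le q p := p.top ≤ q.top ∧ ∀ x, x < p.top → (x ∈ q.s ↔ x ∈ p.s)
  le_refl p := ⟨le_rfl, fun _ _ => Iff.rfl⟩
  le_trans r q p h1 h2 := ⟨h2.1.trans h1.1, fun x hx =>
    (h1.2 x (hx.trans_le h2.1)).trans (h2.2 x hx)⟩

theorem le_def {p q : Cond W} : q ≤ p ↔ p.top ≤ q.top ∧ ∀ x, x < p.top → (x ∈ q.s ↔ x ∈ p.s) :=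
  Iff.rfl

/-- The name of the generic set: `x` is in it iff the generic filter contains a condition with
`x ∈ s`. -/
def gen (x : W) : Set (Cond W) := {p | x ∈ p.s}

/-- The empty condition of length `a`. -/
def empt [WellFoundedLT W] (a : W) : Cond W where
  top := a
  s := ∅
  lt := fun _ h => h.elim
  cof := fun _ h => h.elim
  nst := fun d _ hd => ⟨univ, fun a ha => by
    obtain ⟨b, h1, h2⟩ := hd.2 a ha
    exact ⟨b, ⟨h1, h2⟩, mem_univ _⟩, fun _ _ _ => mem_univ _, fun _ _ _ h => h⟩

/-- Extending the length of a condition without adding elements. -/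
def lift (p : Cond W) (a : W) (h : p.top ≤ a) : Cond W where
  top := a
  s := p.s
  lt := fun x hx => (p.lt x hx).trans_le h
  cof := p.cof
  nst := fun d hd hl => by
    by_cases hp : d ≤ p.top
    · exact p.nst d hp hl
    · push Not at hp
      refine ⟨{x | p.top ≤ x}, fun a ha => ?_, fun x hx hu => ?_, fun x _ hx hs => ?_⟩
      · obtain ⟨b, h1, h2⟩ := hl.2 (max a p.top) (max_lt ha hp)
        exact ⟨b, ⟨(le_max_left _ _).trans_lt h1, h2⟩, ((le_max_right _ _).trans_lt h1).le⟩
      · obtain ⟨a, ha⟩ := hx.1.1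
        obtain ⟨b, ⟨_, h2⟩, h3⟩ := hu a ha
        exact le_trans h3 h2.le
      · exact absurd (p.lt x hs) (not_lt.2 hx)

theorem lift_le (p : Cond W) (a : W) (h : p.top ≤ a) : lift p a h ≤ p :=
  ⟨h, fun _ _ => Iff.rfl⟩

end Pool.Agent.H679NR
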