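import Mathlib
import Pool.Agent.H679NR.Lang
import Pool.Agent.H679NR.Pos

set_option autoImplicit false

open Set Cardinal Filter
open scoped Topology

namespace Pool.Agent.H679NR

open Pool.Agent.Helper584.RM

/-- A condition with a closed set which avoids it and contains its length. -/
structure nr7_Q (W : Type) [LinearOrder W] where
  p : Cond W
  c : Set W
  sub : ∀ x ∈ c, x ≤ p.top
  tp : p.top ∈ c
  dis : ∀ x ∈ c, x ∉ p.s
  cl : ∀ x, x ≤ p.top → IsLim x → (∀ a, a < x → ∃ b, (a < b ∧ b < x) ∧ b ∈ c) → x ∈ c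

/-- `nr7_le q r`: `q` extends `r`. -/
def nr7_le {W : Type} [LinearOrder W] (q r : nr7_Q W) : Prop :=
  q.p ≤ r.p ∧ ∀ x, x ≤ r.p.top → (x ∈ q.c ↔ x ∈ r.c)

theorem nr7_refl {W : Type} [LinearOrder W] (q : nr7_Q W) : nr7_le q q :=
  ⟨le_refl _, fun _ _ => Iff.rfl⟩

theorem nr7_trans {W : Type} [LinearOrder W] {q r t : nr7_Q W} (h1 : nr7_le q r)
    (h2 : nr7_le r t) : nr7_le q t :=
  ⟨le_trans h1.1 h2.1, fun x hx => (h1.2 x (hx.trans (le_def.1 h2.1).1)).trans (h2.2 x hx)⟩

theorem nr7_lb {W : Type} [LinearOrder W] [WellFoundedLT W] (A : Set (nr7_Q W))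
    (hch : ∀ a ∈ A, ∀ b ∈ A, nr7_le a b ∨ nr7_le b a)
    (hb : ∃ t : W, ∀ a ∈ A, a.p.top < t) : ∃ q : nr7_Q W, ∀ a ∈ A, nr7_le q a := by
  classical
  let U : Set W := {t | ∀ a ∈ A, a.p.top < t}
  have hU : U.Nonempty := hb
  let t : W := (wellFounded_lt : WellFounded ((· < ·) : W → W → Prop)).min U hU
  have htU : ∀ a ∈ A, a.p.top < t :=
    (wellFounded_lt : WellFounded ((· < ·) : W → W → Prop)).min_mem U hU
  have hmin : ∀ d, (∀ a ∈ A, a.p.top < d) → t ≤ d := by
    intro d hd
    by_contra hlt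
    rw [not_le] at hlt
    exact (wellFounded_lt : WellFounded ((· < ·) : W → W → Prop)).not_lt_min U (x := d) hd hlt
  have hex : ∀ d, d < t → ∃ a ∈ A, d ≤ a.p.top := by
    intro d hd
    by_contra hcon
    push Not at hcon
    exact absurd (hmin d hcon) (not_le.2 hd)
  let s : Set W := {x | ∃ a ∈ A, x ∈ a.p.s}
  let c : Set W := {x | x = t ∨ ∃ a ∈ A, x ∈ a.c}
  have hs : ∀ a ∈ A, ∀ x, x < a.p.top → (x ∈ s ↔ x ∈ a.p.s) := by
    intro a ha x hx
    constructor
    · rintro ⟨b, hb, hxb⟩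
      rcases hch a ha b hb with h | h
      · exact ((le_def.1 h.1).2 x (b.p.lt x hxb)).2 hxb
      · exact ((le_def.1 h.1).2 x hx).1 hxb
    · intro h
      exact ⟨a, ha, h⟩
  have hc : ∀ a ∈ A, ∀ x, x ≤ a.p.top → (x ∈ c ↔ x ∈ a.c) := by
    intro a ha x hx
    constructor
    · rintro (rfl | ⟨b, hb, hxb⟩)
      · exact absurd hx (not_le.2 (htU a ha))
      · rcases hch a ha b hb with h | h
        · exact (h.2 x (b.sub x hxb)).2 hxb
        · exact (h.2 x hx).1 hxb
    · intro h
      exact Or.inr ⟨a, ha, h⟩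
  have hcs : ∀ x ∈ c, x ∉ s := by
    rintro x (rfl | ⟨a, ha, hxa⟩) ⟨b, hb, hxb⟩
    · exact absurd (b.p.lt _ hxb) (not_lt.2 (htU b hb).le)
    · rcases hch a ha b hb with h | h
      · exact a.dis x hxa (((le_def.1 h.1).2 x (b.p.lt x hxb)).2 hxb)
      · exact b.dis x ((h.2 x (a.sub x hxa)).2 hxa) hxb
  have hclos : ∀ x, x < t → IsLim x → (∀ a, a < x → ∃ b, (a < b ∧ b < x) ∧ b ∈ c) → x ∈ c := by
    intro x hx hl hu
    obtain ⟨r, hr, hxr⟩ := hex x hx
    refine Or.inr ⟨r, hr, r.cl x hxr hl fun a ha => ?_⟩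
    obtain ⟨b, hb1, hb2⟩ := hu a ha
    exact ⟨b, hb1, (hc r hr b (hb1.2.le.trans hxr)).1 hb2⟩
  let P : Cond W :=
    { top := t
      s := s
      lt := by
        rintro x ⟨a, ha, hx⟩
        exact (a.p.lt x hx).trans (htU a ha)
      cof := by
        rintro x ⟨a, ha, hx⟩
        exact a.p.cof x hx
      nst := by
        intro d hd hl
        by_cases h : ∃ a ∈ A, d ≤ a.p.top
        · obtain ⟨a, ha, hda⟩ := h
          obtain ⟨D, h1, h2, h3⟩ := a.p.nst d hda hl
          exact ⟨D, h1, h2, fun x hx hxD hxs => h3 x hx hxD ((hs a ha x (hx.trans_le hda)).1 hxs)⟩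
        · push Not at h
          have hdt : d = t := le_antisymm hd (hmin d h)
          subst hdt
          refine ⟨c, fun a ha => ?_, fun x hx hu => hclos x hx.2 hx.1 hu,
            fun x _ hxc => hcs x hxc⟩
          obtain ⟨a', h1, h2⟩ := hl.2 a ha
          obtain ⟨r, hr, har⟩ := hex a' h2
          exact ⟨r.p.top, ⟨h1.trans_le har, htU r hr⟩, Or.inr ⟨r, hr, r.tp⟩⟩ }
  let q : nr7_Q W :=
    { p := P
      c := c
      sub := by
        rintro x (rfl | ⟨a, ha, hx⟩)
        · exact le_rfl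
        · exact ((a.sub x hx).trans_lt (htU a ha)).le
      tp := Or.inl rfl
      dis := hcs
      cl := by
        intro x hx hl hu
        rcases hx.eq_or_lt with h | h
        · exact Or.inl h
        · exact hclos x h hl hu }
  exact ⟨q, fun a ha => ⟨le_def.2 ⟨(htU a ha).le, hs a ha⟩, hc a ha⟩⟩

theorem nr7_step {W : Type} [LinearOrder W] (hl : ∀ a : W, ∃ b, a < b) (D : Set (Cond W))
    (hD : ∀ q, ∃ r ≤ q, r ∈ D) (q : nr7_Q W) : ∃ r : nr7_Q W, nr7_le r q ∧ r.p ∈ D := by
  obtain ⟨b, hb⟩ := hl q.p.top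
  obtain ⟨p', hp', hp'D⟩ := hD (lift q.p b hb.le)
  have h1 : b ≤ p'.top := (le_def.1 hp').1
  have h2 : ∀ x, x < b → (x ∈ p'.s ↔ x ∈ q.p.s) := (le_def.1 hp').2
  have h3 : q.p.top < p'.top := hb.trans_le h1
  refine ⟨⟨p', {x | x = p'.top ∨ x ∈ q.c}, ?_, Or.inl rfl, ?_, ?_⟩, ⟨?_, ?_⟩, hp'D⟩
  · rintro x (rfl | hx)
    · exact le_rfl
    · exact ((q.sub x hx).trans_lt h3).le
  · rintro x (rfl | hx) hxs
    · exact lt_irrefl _ (p'.lt _ hxs)
    · exact q.dis x hx ((h2 x ((q.sub x hx).trans_lt hb)).1 hxs)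
  · intro x hx hlx hu
    rcases le_or_gt x q.p.top with h | h
    · refine Or.inr (q.cl x h hlx fun a ha => ?_)
      obtain ⟨b0, hb1, hb2⟩ := hu a ha
      rcases hb2 with hb2 | hb2
      · exact absurd (hb1.2.trans_le h) (not_lt.2 (by rw [hb2]; exact h3.le))
      · exact ⟨b0, hb1, hb2⟩
    · obtain ⟨b0, hb1, hb2⟩ := hu q.p.top h
      rcases hb2 with hb2 | hb2
      · exact absurd (hb1.2.trans_le hx) (not_lt.2 (by rw [hb2]))
      · exact absurd hb1.1 (not_lt.2 (q.sub b0 hb2))
  · exact le_trans hp' (lift_le q.p b hb.le)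
  · intro x hx
    constructor
    · rintro (rfl | h)
      · exact absurd hx (not_le.2 h3)
      · exact h
    · intro h
      exact Or.inr h

/- label nr7_. Plain proof. Auxiliary structure Q: (p, c) with p : Cond W, c : Set W, c ⊆ Iic p.top, p.top ∈ c, c ∩ p.s = ∅, and c closed: for x ≤ p.top with IsLim x, if c has elements in (a, x) for all a < x then x ∈ c.
Order: (p', c') ≤ (p, c) iff p' ≤ p in Cond W and for all x ≤ p.top: x ∈ c' ↔ x ∈ c. (1) Lower bounds: let x : W, q0 in Q, and q y (y < x) in Q with q y ≤ q0 and q z ≤ q y for y ≤ z < x. Let t be the least element above q0.top and all (q y).top, y < x (exists by hr, hl). Then s = q0.s ∪ ⋃ (q y).s, top = t, c = q0.c ∪ ⋃ (q y).c ∪ {t} is in Q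
and below all of them: for a limit d ≤ t: if d ≤ (q y).top for some y (or q0.top), then s agrees with (q y).s below d, use its nst. Otherwise d = t by minimality, and for every a < t some (q y).top ≥ a (or q0.top); so ⋃ (q y).c is unbounded in t (t is a limit element), closed in t (if it is unbounded in a limit x' < t, take y with (q y).top ≥ x'; then (q y).c is unbounded in x', hence x' is in it) and
disjoint from s. (2) One step: given (p, c) in Q and x there is (p', c') ≤ (p, c) with p' ∈ D x: take r = lift p b with b > p.top, so p.top ∉ r.s and it stays out of all extensions; take p' ≤ r with p' ∈ D x and c' = c ∪ {p'.top} (no limit problem: between p.top and p'.top there are no elements of c'). Note that p' ≤ r implies that p'.s agrees with p.s on {x | x < b} ∋ p.top, so c' is disjoint from p'.s.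
(3) Define q x by well-founded recursion: if the family q y (y < x) is descending and below q0 = (lift of p, {its top}) then choose one step below a lower bound, otherwise q0; prove by induction that the first case always holds. g x = (q x).p. -/
theorem chain {W : Type} [LinearOrder W] [WellFoundedLT W] (hl : ∀ a : W, ∃ b, a < b)
    (hr : ∀ (a : W) (f : W → W), ∃ b, ∀ x, x < a → f x < b) (p : Cond W) (D : W → Set (Cond W))
    (hD : ∀ x q, ∃ r ≤ q, r ∈ D x) :
    ∃ g : W → Cond W, (∀ x, g x ≤ p) ∧ (∀ x, g x ∈ D x) ∧ ∀ x y, x ≤ y → g y ≤ g x := by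
  classical
  let q0 : nr7_Q W :=
    { p := p
      c := {p.top}
      sub := by
        rintro x rfl
        exact le_rfl
      tp := rfl
      dis := by
        rintro x rfl hx
        exact lt_irrefl _ (p.lt _ hx)
      cl := by
        intro x hx hlx hu
        obtain ⟨a, ha⟩ := hlx.1
        obtain ⟨b, hb1, hb2⟩ := hu a ha
        have hb3 : b = p.top := hb2
        exact absurd (hb1.2.trans_le hx) (not_lt.2 (by rw [hb3])) }
  let F : ∀ x : W, (∀ y : W, y < x → nr7_Q W) → nr7_Q W := fun x ih =>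
    if h : ∃ q' : nr7_Q W, (∀ y (hy : y < x), nr7_le q' (ih y hy)) ∧ nr7_le q' q0 ∧ q'.p ∈ D x
    then h.choose else q0
  let G : W → nr7_Q W := (wellFounded_lt : WellFounded ((· < ·) : W → W → Prop)).fix F
  have hG : ∀ x, G x = F x (fun y _ => G y) := fun x =>
    (wellFounded_lt : WellFounded ((· < ·) : W → W → Prop)).fix_eq F x
  have key : ∀ x, nr7_le (G x) q0 ∧ (G x).p ∈ D x ∧ ∀ y, y < x → nr7_le (G x) (G y) := by
    intro x
    induction x using (wellFounded_lt : WellFounded ((· < ·) : W → W → Prop)).induction with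
    | _ x ih =>
      have hex : ∃ q' : nr7_Q W, (∀ y (_ : y < x), nr7_le q' (G y)) ∧ nr7_le q' q0 ∧
          q'.p ∈ D x := by
        obtain ⟨b, hb⟩ := hr x (fun y => (G y).p.top)
        obtain ⟨b', hb'⟩ := hl q0.p.top
        obtain ⟨q1, hq1⟩ := nr7_lb {q | q = q0 ∨ ∃ y, y < x ∧ q = G y} (by
          rintro a (rfl | ⟨y, hy, rfl⟩) a' (rfl | ⟨z, hz, rfl⟩)
          · exact Or.inl (nr7_refl _)
          · exact Or.inr (ih z hz).1
          · exact Or.inl (ih y hy).1
          · rcases lt_trichotomy y z with h | h | h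
            · exact Or.inr ((ih z hz).2.2 y h)
            · subst h
              exact Or.inl (nr7_refl _)
            · exact Or.inl ((ih y hy).2.2 z h)) ⟨max b b', by
          rintro a (rfl | ⟨y, hy, rfl⟩)
          · exact hb'.trans_le (le_max_right _ _)
          · exact (hb y hy).trans_le (le_max_left _ _)⟩
        obtain ⟨r, hr1, hr2⟩ := nr7_step hl (D x) (hD x) q1
        exact ⟨r, fun y hy => nr7_trans hr1 (hq1 _ (Or.inr ⟨y, hy, rfl⟩)),
          nr7_trans hr1 (hq1 _ (Or.inl rfl)), hr2⟩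
      have h1 : G x = hex.choose := by
        rw [hG]
        exact dif_pos hex
      have h2 := hex.choose_spec
      rw [← h1] at h2
      exact ⟨h2.2.1, h2.2.2, fun y hy => h2.1 y hy⟩
  refine ⟨fun x => (G x).p, fun x => (key x).1.1, fun x => (key x).2.1, fun x y hxy => ?_⟩
  rcases hxy.eq_or_lt with h | h
  · subst h
    exact le_refl _
  · exact ((key y).2.2 x h).1

end Pool.Agent.H679NR
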