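import Mathlib
import Pool.Agent.H679NR.Lang

set_option autoImplicit false

open Set Cardinal Filter
open scoped Topology

namespace Pool.Agent.H679NR

open Pool.Agent.Helper584.RM

/-- A ladder on `a` is, from some index on, disjoint from a ladder on a larger `e`. -/
theorem nr1_sep {W : Type} [LinearOrder W] {f g : ℕ → W} {a e : W} (hae : a < e)
    (hf : ∀ n, f n < f (n + 1)) (hfa : ∀ n, f n < a) (hfc : ∀ x, x < a → ∃ n, x < f n)
    (hg : ∀ n, g n < g (n + 1)) (hgc : ∀ x, x < e → ∃ n, x < g n) :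
    ∃ m, ∀ i j, m ≤ i → f i ≠ g j := by
  classical
  have hfm : Monotone f := monotone_nat_of_le_succ fun n => (hf n).le
  have hgm : Monotone g := monotone_nat_of_le_succ fun n => (hg n).le
  have hex : ∃ n, a ≤ g n := by
    obtain ⟨n, hn⟩ := hgc a hae
    exact ⟨n, hn.le⟩
  obtain ⟨k, hk, hmin⟩ : ∃ k, a ≤ g k ∧ ∀ j, j < k → ¬ a ≤ g j :=
    ⟨Nat.find hex, Nat.find_spec hex, fun j hj => Nat.find_min hex hj⟩
  rcases k with _ | k
  · refine ⟨0, fun i j _ h => ?_⟩
    have h1 : g 0 ≤ g j := hgm (Nat.zero_le j)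
    have h2 := hfa i
    rw [h] at h2
    exact absurd (lt_of_lt_of_le h2 (hk.trans h1)) (lt_irrefl _)
  · have hlt : g k < a := lt_of_not_ge (hmin k (Nat.lt_succ_self k))
    obtain ⟨m, hm⟩ := hfc _ hlt
    refine ⟨m, fun i j hi h => ?_⟩
    have h1 : g k < f i := lt_of_lt_of_le hm (hfm hi)
    have h2 := hfa i
    rw [h] at h1 h2
    rcases Nat.lt_or_ge j (k + 1) with hj | hj
    · exact absurd (lt_of_lt_of_le h1 (hgm (Nat.lt_succ_iff.mp hj))) (lt_irrefl _)
    · exact absurd (lt_of_lt_of_le h2 (hk.trans (hgm hj))) (lt_irrefl _)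

/-- The ladders of a nonreflecting set below `d` have pairwise disjoint tails. -/
theorem disj {W : Type} [LinearOrder W] [WellFoundedLT W] {E : W → Prop} {s : W → ℕ → W}
    (h : NonReflWith W E s) (d : W) :
    ∃ N : W → ℕ, ∀ a b, a < d → b < d → E a → E b → a ≠ b →
      ∀ i j, N a ≤ i → N b ≤ j → s a i ≠ s b j := by
  classical
  obtain ⟨hl, -, hr⟩ := h
  induction d using WellFoundedLT.induction with
  | ind d ih =>
  by_cases h0 : ∃ a, a < d
  swap
  · exact ⟨fun _ => 0, fun a b ha _ _ _ _ => absurd ⟨a, ha⟩ h0⟩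
  by_cases hlim : IsLim d
  swap
  · -- `d` has a largest element below it
    have h1 : ∃ e, e < d ∧ ∀ b, e < b → ¬ b < d := by
      by_contra hcon
      apply hlim
      refine ⟨h0, fun a ha => ?_⟩
      by_contra hb
      exact hcon ⟨a, ha, fun b hab hbd => hb ⟨b, hab, hbd⟩⟩
    obtain ⟨e, hed, hemax⟩ := h1
    have hle : ∀ b, b < d → b ≤ e := fun b hb => le_of_not_gt fun hlt => hemax b hlt hb
    obtain ⟨N, hN⟩ := ih e hed
    have hM : ∀ a, ∃ m, E a → E e → a < e → ∀ i j, m ≤ i → s a i ≠ s e j := by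
      intro a
      by_cases hc : E a ∧ E e ∧ a < e
      · obtain ⟨hEa, hEe, hae⟩ := hc
        obtain ⟨m, hm⟩ := nr1_sep hae (hl a hEa).1 (hl a hEa).2.1 (hl a hEa).2.2
          (hl e hEe).1 (hl e hEe).2.2
        exact ⟨m, fun _ _ _ => hm⟩
      · exact ⟨0, fun h1 h2 h3 => absurd ⟨h1, h2, h3⟩ hc⟩
    choose M hM using hM
    refine ⟨fun a => max (N a) (M a), fun a b ha hb hEa hEb hab i j hi hj => ?_⟩
    have hi1 : N a ≤ i := (le_max_left _ _).trans hi
    have hi2 : M a ≤ i := (le_max_right _ _).trans hi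
    have hj1 : N b ≤ j := (le_max_left _ _).trans hj
    have hj2 : M b ≤ j := (le_max_right _ _).trans hj
    rcases (hle a ha).lt_or_eq with ha' | ha'
    · rcases (hle b hb).lt_or_eq with hb' | hb'
      · exact hN a b ha' hb' hEa hEb hab i j hi1 hj1
      · subst hb'
        exact hM a hEa hEb ha' i j hi2
    · rcases (hle b hb).lt_or_eq with hb' | hb'
      · subst ha'
        exact (hM b hEb hEa hb' j i hj2).symm
      · exact absurd (ha'.trans hb'.symm) hab
  · -- `d` is a limit element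
    obtain ⟨D, hD1, hD2, hD3⟩ := hr d hlim
    have hc : ∀ a, ∃ c, a < d → E a → c < a ∧ ∀ b, c < b → b < a → ¬ D b := by
      intro a
      by_cases hc : a < d ∧ E a
      · obtain ⟨had, hEa⟩ := hc
        have hla : IsLim a := by
          refine ⟨⟨s a 0, (hl a hEa).2.1 0⟩, fun x hx => ?_⟩
          obtain ⟨n, hn⟩ := (hl a hEa).2.2 x hx
          exact ⟨s a n, hn, (hl a hEa).2.1 n⟩
        have hnD : ¬ D a := fun hDa => hD3 a had hDa hEa
        by_contra hcon
        apply hnD
        refine hD2 a ⟨hla, had⟩ fun x hx => ?_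
        by_contra hb
        exact hcon ⟨x, fun _ _ => ⟨hx, fun b hxb hba hDb => hb ⟨b, ⟨hxb, hba⟩, hDb⟩⟩⟩
      · exact ⟨a, fun h1 h2 => absurd ⟨h1, h2⟩ hc⟩
    choose c hc using hc
    have hc' : ∀ a, ∃ c', a < d → a < c' ∧ c' < d ∧ D c' ∧ ∀ b, a < b → D b → c' ≤ b := by
      intro a
      by_cases had : a < d
      · obtain ⟨b, ⟨hab, hbd⟩, hDb⟩ := hD1 a had
        have hne : ({x | a < x ∧ D x} : Set W).Nonempty := ⟨b, hab, hDb⟩
        have hwf : WellFounded ((· < ·) : W → W → Prop) := wellFounded_lt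
        refine ⟨hwf.min {x | a < x ∧ D x} hne, fun _ => ?_⟩
        have hmem := hwf.min_mem {x | a < x ∧ D x} hne
        have hmin : ∀ x, a < x → D x → hwf.min {x | a < x ∧ D x} hne ≤ x := fun x hx hDx =>
          le_of_not_gt (hwf.not_lt_min {x | a < x ∧ D x} (x := x) ⟨hx, hDx⟩)
        exact ⟨hmem.1, lt_of_le_of_lt (hmin b hab hDb) hbd, hmem.2, hmin⟩
      · exact ⟨a, fun h1 => absurd h1 had⟩
    choose c' hc' using hc'
    have ihN : ∀ x, ∃ N : W → ℕ, x < d → ∀ a b, a < x → b < x → E a → E b → a ≠ b →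
        ∀ i j, N a ≤ i → N b ≤ j → s a i ≠ s b j := by
      intro x
      by_cases hx : x < d
      · obtain ⟨N, hN⟩ := ih x hx
        exact ⟨N, fun _ => hN⟩
      · exact ⟨fun _ => 0, fun h1 => absurd h1 hx⟩
    choose Nn hNn using ihN
    have hM : ∀ a, ∃ m, a < d → E a → ∀ i, m ≤ i → c a < s a i := by
      intro a
      by_cases hcc : a < d ∧ E a
      · obtain ⟨had, hEa⟩ := hcc
        have hm : Monotone (s a) := monotone_nat_of_le_succ fun n => ((hl a hEa).1 n).le
        obtain ⟨m, hm'⟩ := (hl a hEa).2.2 _ (hc a had hEa).1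
        exact ⟨m, fun _ _ i hi => lt_of_lt_of_le hm' (hm hi)⟩
      · exact ⟨0, fun h1 h2 => absurd ⟨h1, h2⟩ hcc⟩
    choose M hM using hM
    have key : ∀ a b, a < b → b < d → E a → E b → ∀ i j, max (Nn (c' a) a) (M a) ≤ i →
        max (Nn (c' b) b) (M b) ≤ j → s a i ≠ s b j := by
      intro a b hab hbd hEa hEb i j hi hj
      have had : a < d := hab.trans hbd
      obtain ⟨ha1, ha2, ha3, ha4⟩ := hc' a had
      obtain ⟨hb1, hb2, hb3, hb4⟩ := hc' b hbd
      by_cases heq : c' a = c' b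
      · rw [← heq] at hb1 hj
        exact hNn (c' a) ha2 a b ha1 hb1 hEa hEb hab.ne i j ((le_max_left _ _).trans hi)
          ((le_max_left _ _).trans hj)
      · have h1 : c' a ≤ b := by
          by_contra hcon
          have hlt : b < c' a := lt_of_not_ge hcon
          exact heq (le_antisymm (ha4 _ (hab.trans hb1) hb3) (hb4 _ hlt ha3))
        have h2 : c' a ≠ b := by
          intro he
          rw [he] at ha3
          exact hD3 b hbd ha3 hEb
        have h3 : c' a < b := lt_of_le_of_ne h1 h2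
        have h4 : c' a ≤ c b := by
          by_contra hcon
          exact (hc b hbd hEb).2 _ (lt_of_not_ge hcon) h3 ha3
        have h5 : c b < s b j := hM b hbd hEb j ((le_max_right _ _).trans hj)
        have h6 : s a i < a := (hl a hEa).2.1 i
        exact (h6.trans (ha1.trans_le (h4.trans h5.le))).ne
    refine ⟨fun a => max (Nn (c' a) a) (M a), fun a b ha hb hEa hEb hab i j hi hj => ?_⟩
    rcases lt_or_gt_of_ne hab with hlt | hlt
    · exact key a b hlt hb hEa hEb i j hi hj
    · exact (key b a hlt ha hEb hEa j i hj hi).symm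

end Pool.Agent.H679NR
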