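import Pool.Agent.H679NR.Lang

set_option autoImplicit false

/-!
# The one-point compactification of the ladder space, as a closed set of pairs of 0-1 functions
-/

open Set

namespace Pool.Agent.H679NR

variable {W : Type} [LinearOrder W] (E : W → Prop) (s : W → ℕ → W)

/-- The points of the space: `z.1` and `z.2` are 0-1 functions on `W`. At most one value of `z.1` is
`1`; if `z.1 x = 1`, then `z.2` is the indicator function of the set of all `c ∈ E` such that `x` is in
the ladder `s c`; if two values `z.2 c`, `z.2 c'` are `1`, then `z.1 x = 1` for some `x` which is in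
both ladders; if `z.2 c = 1`, then `c ∈ E`. -/
def Pt (z : (W → Bool) × (W → Bool)) : Prop :=
  (∀ x y, z.1 x = true → z.1 y = true → x = y) ∧
  (∀ x, z.1 x = true → ∀ c, (z.2 c = true ↔ (E c ∧ ∃ n, s c n = x))) ∧
  (∀ c c', z.2 c = true → z.2 c' = true → c ≠ c' →
    ∃ x, z.1 x = true ∧ (∃ n, s c n = x) ∧ ∃ n, s c' n = x) ∧
  ∀ c, z.2 c = true → E c

/-- The space. -/
abbrev Sp : Type := {z : (W → Bool) × (W → Bool) // Pt E s z}

open Classical in
/-- The point belonging to `x`. -/
noncomputable def iso (x : W) : Sp E s :=
  ⟨(fun y => decide (y = x), fun c => decide (E c ∧ ∃ n, s c n = x)), by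
    refine ⟨fun y z h1 h2 => (of_decide_eq_true h1).trans (of_decide_eq_true h2).symm,
      fun y h c => ?_, fun c c' h1 h2 _ => ?_, fun c h => ?_⟩
    · obtain rfl : y = x := of_decide_eq_true h
      exact decide_eq_true_iff
    · exact ⟨x, decide_eq_true rfl, (of_decide_eq_true h1).2, (of_decide_eq_true h2).2⟩
    · exact (of_decide_eq_true h).1⟩

open Classical in
/-- The limit point belonging to `c ∈ E`. -/
noncomputable def lim (c : W) (hc : E c) : Sp E s :=
  ⟨(fun _ => false, fun d => decide (d = c)), by
    refine ⟨fun _ _ h => by simp at h, fun _ h => by simp at h, fun d d' h1 h2 h => ?_, fun d h => ?_⟩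
    · exact absurd ((of_decide_eq_true h1).trans (of_decide_eq_true h2).symm) h
    · have h1 : d = c := of_decide_eq_true h
      rw [h1]
      exact hc⟩

/-- The point at infinity. -/
def inf : Sp E s :=
  ⟨(fun _ => false, fun _ => false), by
    refine ⟨fun _ _ h => by simp at h, fun _ h => by simp at h, fun _ _ h => by simp at h,
      fun _ h => by simp at h⟩⟩

end Pool.Agent.H679NR
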