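import Mathlib
import Pool.Agent.H679NR.Lang
import Pool.Agent.H679NR.Space

set_option autoImplicit false

open Set Cardinal Filter
open scoped Topology

namespace Pool.Agent.H679NR

open Pool.Agent.Helper584.RM

/- label nr3_. -/
theorem pt_cases {W : Type} [LinearOrder W] {E : W → Prop} {s : W → ℕ → W} (z : Sp E s) :
    (∃ x, z = iso E s x) ∨ (∃ (c : W) (hc : E c), z = lim E s c hc) ∨ z = inf E s := by
  obtain ⟨⟨f, g⟩, h1, h2, h3, h4⟩ := z
  simp only at h1 h2 h3 h4
  by_cases hx : ∃ x, f x = true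
  · left
    obtain ⟨x, hx⟩ := hx
    refine ⟨x, ?_⟩
    apply Subtype.ext
    refine Prod.ext (funext fun y => ?_) (funext fun c => ?_)
    · show f y = decide (y = x)
      rw [Bool.eq_iff_iff, decide_eq_true_iff]
      exact ⟨fun hy => h1 y x hy hx, fun hy => hy ▸ hx⟩
    · refine Bool.eq_iff_iff.2 ((h2 x hx c).trans ?_)
      unfold iso
      simp only [decide_eq_true_iff]
  · right
    by_cases hc : ∃ c, g c = true
    · left
      obtain ⟨c, hc⟩ := hc
      refine ⟨c, h4 c hc, ?_⟩
      apply Subtype.ext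
      refine Prod.ext (funext fun y => ?_) (funext fun d => ?_)
      · show f y = false
        by_contra hy
        exact hx ⟨y, by simpa using hy⟩
      · refine Bool.eq_iff_iff.2 (Iff.trans ?_ (decide_eq_true_iff).symm)
        constructor
        · intro hd
          by_contra hne
          obtain ⟨x, hx', -⟩ := h3 d c hd hc hne
          exact hx ⟨x, hx'⟩
        · intro hd
          rw [hd]
          exact hc
    · right
      apply Subtype.ext
      refine Prod.ext (funext fun y => ?_) (funext fun d => ?_)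
      · show f y = false
        by_contra hy
        exact hx ⟨y, by simpa using hy⟩
      · show g d = false
        by_contra hy
        exact hc ⟨d, by simpa using hy⟩

theorem nr3_fin_lt {W : Type} [LinearOrder W] {E : W → Prop} {s : W → ℕ → W}
    (h : NonReflWith W E s) {c c' : W} (hc : E c) (hc' : E c') (hlt : c < c') :
    {x | (∃ n, s c n = x) ∧ ∃ n, s c' n = x}.Finite := by
  obtain ⟨-, hcb, -⟩ := h.1 c hc
  obtain ⟨hmono, -, hcof⟩ := h.1 c' hc'
  have hsm : StrictMono (s c') := strictMono_nat_of_lt_succ hmono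
  obtain ⟨m, hm⟩ := hcof c hlt
  refine ((Set.finite_Iio m).image (s c')).subset ?_
  rintro x ⟨⟨n, hn⟩, k, hk⟩
  refine ⟨k, ?_, hk⟩
  have h1 : s c' k < s c' m := by
    rw [hk, ← hn]
    exact (hcb n).trans hm
  exact hsm.lt_iff_lt.1 h1

theorem nr3_fin {W : Type} [LinearOrder W] {E : W → Prop} {s : W → ℕ → W}
    (h : NonReflWith W E s) {c c' : W} (hc : E c) (hc' : E c') (hne : c ≠ c') :
    {x | (∃ n, s c n = x) ∧ ∃ n, s c' n = x}.Finite := by
  rcases lt_or_gt_of_ne hne with hlt | hlt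
  · exact nr3_fin_lt h hc hc' hlt
  · refine (nr3_fin_lt h hc' hc hlt).subset ?_
    rintro x ⟨h1, h2⟩
    exact ⟨h2, h1⟩

theorem nr3_clopen1 {W : Type} (x : W) :
    IsClopen {z : (W → Bool) × (W → Bool) | z.1 x = true} := by
  have hc : Continuous (fun z : (W → Bool) × (W → Bool) => z.1 x) := by fun_prop
  exact (isClopen_discrete {true}).preimage hc

theorem nr3_clopen2 {W : Type} (x : W) :
    IsClopen {z : (W → Bool) × (W → Bool) | z.2 x = true} := by
  have hc : Continuous (fun z : (W → Bool) × (W → Bool) => z.2 x) := by fun_prop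
  exact (isClopen_discrete {true}).preimage hc

theorem isClosed_pt {W : Type} [LinearOrder W] {E : W → Prop} {s : W → ℕ → W}
    (h : NonReflWith W E s) : IsClosed {z : (W → Bool) × (W → Bool) | Pt E s z} := by
  have hA : IsClosed {z : (W → Bool) × (W → Bool) | ∀ x y, z.1 x = true → z.1 y = true → x = y} := by
    simp only [Set.ofPred_forall]
    refine isClosed_iInter fun x => isClosed_iInter fun y => ?_
    exact isClosed_imp (nr3_clopen1 x).isOpen (isClosed_imp (nr3_clopen1 y).isOpen isClosed_const)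
  have hB : IsClosed {z : (W → Bool) × (W → Bool) | ∀ x, z.1 x = true → ∀ c,
      (z.2 c = true ↔ (E c ∧ ∃ n, s c n = x))} := by
    have : {z : (W → Bool) × (W → Bool) | ∀ x, z.1 x = true → ∀ c,
      (z.2 c = true ↔ (E c ∧ ∃ n, s c n = x))} = {z : (W → Bool) × (W → Bool) | ∀ x c, z.1 x = true →
      (z.2 c = true ↔ (E c ∧ ∃ n, s c n = x))} := by
      ext z
      exact ⟨fun hz x c hx => hz x hx c, fun hz x hx c => hz x c hx⟩
    rw [this]
    simp only [Set.ofPred_forall]
    refine isClosed_iInter fun x => isClosed_iInter fun c => ?_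
    refine isClosed_imp (nr3_clopen1 x).isOpen ?_
    by_cases hQ : E c ∧ ∃ n, s c n = x
    · have : {z : (W → Bool) × (W → Bool) | (z.2 c = true ↔ (E c ∧ ∃ n, s c n = x))} =
          {z : (W → Bool) × (W → Bool) | z.2 c = true} := by
        ext z
        simp only [Set.mem_ofPred_eq]
        exact ⟨fun hz => hz.2 hQ, fun hz => ⟨fun _ => hQ, fun _ => hz⟩⟩
      rw [this]
      exact (nr3_clopen2 c).isClosed
    · have : {z : (W → Bool) × (W → Bool) | (z.2 c = true ↔ (E c ∧ ∃ n, s c n = x))} =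
          {z : (W → Bool) × (W → Bool) | z.2 c = true}ᶜ := by
        ext z
        simp only [Set.mem_ofPred_eq, Set.mem_compl_iff]
        exact ⟨fun hz hz' => hQ (hz.1 hz'), fun hz => ⟨fun hz' => absurd hz' hz, fun hz' => absurd hz' hQ⟩⟩
      rw [this]
      exact (nr3_clopen2 c).compl.isClosed
  have hC : IsClosed {z : (W → Bool) × (W → Bool) | ∀ c c', (E c ∧ E c' ∧ c ≠ c') → z.2 c = true →
      z.2 c' = true → ∃ x, z.1 x = true ∧ (∃ n, s c n = x) ∧ ∃ n, s c' n = x} := by
    simp only [Set.ofPred_forall]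
    refine isClosed_iInter fun c => isClosed_iInter fun c' => isClosed_iInter fun hcc => ?_
    refine isClosed_imp (nr3_clopen2 c).isOpen (isClosed_imp (nr3_clopen2 c').isOpen ?_)
    have : {z : (W → Bool) × (W → Bool) | ∃ x, z.1 x = true ∧ (∃ n, s c n = x) ∧ ∃ n, s c' n = x} =
        ⋃ x ∈ {x | (∃ n, s c n = x) ∧ ∃ n, s c' n = x},
          {z : (W → Bool) × (W → Bool) | z.1 x = true} := by
      ext z
      simp only [Set.mem_ofPred_eq, Set.mem_iUnion, exists_prop]
      exact ⟨fun ⟨x, h1, h2⟩ => ⟨x, h2, h1⟩, fun ⟨x, h1, h2⟩ => ⟨x, h2, h1⟩⟩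
    rw [this]
    exact (nr3_fin h hcc.1 hcc.2.1 hcc.2.2).isClosed_biUnion fun x _ => (nr3_clopen1 x).isClosed
  have hD : IsClosed {z : (W → Bool) × (W → Bool) | ∀ c, z.2 c = true → E c} := by
    simp only [Set.ofPred_forall]
    refine isClosed_iInter fun c => ?_
    exact isClosed_imp (nr3_clopen2 c).isOpen isClosed_const
  have heq : {z : (W → Bool) × (W → Bool) | Pt E s z} =
      ({z : (W → Bool) × (W → Bool) | ∀ x y, z.1 x = true → z.1 y = true → x = y} ∩
      {z : (W → Bool) × (W → Bool) | ∀ x, z.1 x = true → ∀ c,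
        (z.2 c = true ↔ (E c ∧ ∃ n, s c n = x))}) ∩
      ({z : (W → Bool) × (W → Bool) | ∀ c c', (E c ∧ E c' ∧ c ≠ c') → z.2 c = true →
      z.2 c' = true → ∃ x, z.1 x = true ∧ (∃ n, s c n = x) ∧ ∃ n, s c' n = x} ∩
      {z : (W → Bool) × (W → Bool) | ∀ c, z.2 c = true → E c}) := by
    ext z
    constructor
    · rintro ⟨h1, h2, h3, h4⟩
      exact ⟨⟨h1, h2⟩, fun c c' hcc hc hc' => h3 c c' hc hc' hcc.2.2, h4⟩
    · rintro ⟨⟨h1, h2⟩, h3, h4⟩
      exact ⟨h1, h2, fun c c' hc hc' hne => h3 c c' ⟨h4 c hc, h4 c' hc', hne⟩ hc hc', h4⟩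
  rw [heq]
  exact (hA.inter hB).inter (hC.inter hD)

end Pool.Agent.H679NR
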