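import Mathlib
import Pool.Agent.H679NR.Disj
import Pool.Agent.H679NR.PtSpace
import Pool.Agent.H679NR.Lang
import Pool.Agent.H679NR.Space

set_option autoImplicit false

open Set Cardinal Filter
open scoped Topology

namespace Pool.Agent.H679NR

open Pool.Agent.Helper584.RM





section nr4

variable {W : Type} [LinearOrder W] {E : W → Prop} {s : W → ℕ → W}

theorem nr4_iso1 (x y : W) : (iso E s x).1.1 y = true ↔ y = x := by
  simp [iso]

theorem nr4_iso2 (x c : W) : (iso E s x).1.2 c = true ↔ (E c ∧ ∃ n, s c n = x) := by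
  simp [iso]

theorem nr4_lim1 (c : W) (hc : E c) (y : W) : (lim E s c hc).1.1 y = false := rfl

theorem nr4_lim2 (c : W) (hc : E c) (y : W) : (lim E s c hc).1.2 y = true ↔ y = c := by
  simp [lim]

theorem nr4_inf1 (y : W) : (inf E s).1.1 y = false := rfl

theorem nr4_inf2 (y : W) : (inf E s).1.2 y = false := rfl

theorem nr4_cont (c : W) (N : ℕ) :
    Continuous (fun z : Sp E s =>
      ((z.1.2 c, fun i : Fin N => z.1.1 (s c i)) : Bool × (Fin N → Bool))) := by
  refine Continuous.prodMk ?_ ?_
  · exact (continuous_apply c).comp (continuous_snd.comp continuous_subtype_val)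
  · refine continuous_pi fun i => ?_
    exact (continuous_apply (s c i)).comp (continuous_fst.comp continuous_subtype_val)

/-- the bound for the points of `A` bounds the limit points in the closure -/
theorem nr4_clos {A : Set (Sp E s)} (h : NonReflWith W E s) {b : W}
    (h1 : ∀ x, iso E s x ∈ A → x < b) (h2 : ∀ c (hc : E c), lim E s c hc ∈ A → c < b)
    (pc : ∀ z : Sp E s, (∃ x, z = iso E s x) ∨ (∃ (c : W) (hc : E c), z = lim E s c hc) ∨ z = inf E s)
    (c : W) (hc : E c) (hcl : lim E s c hc ∈ closure A) : c ≤ b := by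
  by_contra hlt
  push Not at hlt
  obtain ⟨hs1, _, hs3⟩ := h.1 c hc
  have hmono : StrictMono (s c) := strictMono_nat_of_lt_succ hs1
  obtain ⟨n0, hn0⟩ := hs3 b hlt
  have hopen : IsOpen ((fun z : Sp E s =>
      ((z.1.2 c, fun i : Fin n0 => z.1.1 (s c i)) : Bool × (Fin n0 → Bool))) ⁻¹'
        {(true, fun _ => false)}) :=
    (isOpen_discrete _).preimage (nr4_cont c n0)
  obtain ⟨z, hz, hzA⟩ := mem_closure_iff.1 hcl _ hopen (by
    show (((lim E s c hc).1.2 c, fun i : Fin n0 => (lim E s c hc).1.1 (s c i)) :
      Bool × (Fin n0 → Bool)) = (true, fun _ => false)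
    rw [(nr4_lim2 c hc c).2 rfl]
    rfl)
  have hz' : ((z.1.2 c, fun i : Fin n0 => z.1.1 (s c i)) : Bool × (Fin n0 → Bool)) =
    (true, fun _ => false) := hz
  rw [Prod.mk.injEq] at hz'
  obtain ⟨hz1, hz2⟩ := hz'
  rcases pc z with ⟨x, rfl⟩ | ⟨c', hc', rfl⟩ | rfl
  · obtain ⟨_, n, hn⟩ := (nr4_iso2 x c).1 hz1
    have hx := h1 x hzA
    by_cases hnn : n < n0
    · have := congrFun hz2 ⟨n, hnn⟩
      rw [show (iso E s x).1.1 (s c n) = true from (nr4_iso1 x (s c n)).2 hn] at this
      simp at this
    · have h4 : s c n0 ≤ s c n := hmono.monotone (not_lt.1 hnn)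
      rw [hn] at h4
      exact absurd (hn0.trans_le h4) (not_lt.2 hx.le)
  · have h4 : c = c' := (nr4_lim2 c' hc' c).1 hz1
    have h5 := h2 c' hc' hzA
    rw [← h4] at h5
    exact absurd h5 (not_lt.2 hlt.le)
  · rw [nr4_inf2] at hz1
    simp at hz1

end nr4

/- TARGET -/
theorem eberlein_closure {W : Type} [LinearOrder W] [WellFoundedLT W] {E : W → Prop}
    {s : W → ℕ → W} (h : NonReflWith W E s) (hn : ∀ a : W, ∃ b, a < b)
    (hb : ∀ A : Set W, #A ≤ 𝔠 → ∃ b, ∀ a ∈ A, a < b) (A : Set (Sp E s)) (hA : #A ≤ 𝔠) :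
    ∃ (Γ : Type) (f : ↥(closure A) → (Γ → ℝ)), Continuous f ∧ Function.Injective f ∧
      (∀ x, (Function.support (f x)).Finite) ∧ ∀ x γ, |f x γ| ≤ 1 := by
  classical
  obtain ⟨b1, hb1⟩ := hb {x | iso E s x ∈ A} (by
    refine le_trans (Cardinal.mk_le_of_injective
      (f := fun x : {x | iso E s x ∈ A} => (⟨iso E s x.1, x.2⟩ : A)) ?_) hA
    intro x y hxy
    have h1 : iso E s x.1 = iso E s y.1 := congrArg Subtype.val hxy
    apply Subtype.ext
    have h2 := (nr4_iso1 (E := E) (s := s) x.1 x.1).2 rfl
    rw [h1] at h2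
    exact (nr4_iso1 y.1 x.1).1 h2)
  obtain ⟨b2, hb2⟩ := hb {c | ∃ hc : E c, lim E s c hc ∈ A} (by
    refine le_trans (Cardinal.mk_le_of_injective
      (f := fun c : {c | ∃ hc : E c, lim E s c hc ∈ A} =>
        (⟨lim E s c.1 c.2.choose, c.2.choose_spec⟩ : A)) ?_) hA
    intro x y hxy
    have h1 : lim E s x.1 x.2.choose = lim E s y.1 y.2.choose := congrArg Subtype.val hxy
    apply Subtype.ext
    have h2 := (nr4_lim2 (E := E) (s := s) x.1 x.2.choose x.1).2 rfl
    rw [h1] at h2
    exact (nr4_lim2 y.1 y.2.choose x.1).1 h2)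
  obtain ⟨d, hd⟩ := hn (max b1 b2)
  have hcl : ∀ c (hc : E c), lim E s c hc ∈ closure A → c < d := by
    intro c hc hcc
    refine lt_of_le_of_lt ?_ hd
    refine nr4_clos (A := A) h ?_ ?_ pt_cases c hc hcc
    · intro x hx
      exact lt_max_of_lt_left (hb1 x hx)
    · intro c hc hx
      exact lt_max_of_lt_right (hb2 c ⟨hc, hx⟩)
  obtain ⟨N, hN⟩ := disj h d
  let g : (c : W) → Bool × (Fin (N c) → Bool) → ℝ := fun c t =>
    if c < d ∧ t.1 = true ∧ ∀ i, t.2 i = false then 1 else 0
  let f : ↥(closure A) → ((W ⊕ W) → ℝ) := fun z γ => match γ with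
    | Sum.inl x => if z.1.1.1 x = true then 1 else 0
    | Sum.inr c => g c (z.1.1.2 c, fun i : Fin (N c) => z.1.1.1 (s c i))
  have hf1 : ∀ z x, f z (Sum.inl x) = if z.1.1.1 x = true then 1 else 0 := fun _ _ => rfl
  have hf2 : ∀ z c, f z (Sum.inr c) =
      if c < d ∧ z.1.1.2 c = true ∧ ∀ i : Fin (N c), z.1.1.1 (s c i) = false then 1 else 0 :=
    fun _ _ => rfl
  refine ⟨W ⊕ W, f, ?_, ?_, ?_, ?_⟩
  · refine continuous_pi fun γ => ?_
    rcases γ with x | c
    · have e : Continuous (fun t : Bool => (if t = true then (1 : ℝ) else 0)) :=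
        continuous_of_discreteTopology
      exact e.comp ((continuous_apply x).comp (continuous_fst.comp
        (continuous_subtype_val.comp continuous_subtype_val)))
    · have e : Continuous (g c) := continuous_of_discreteTopology
      exact e.comp ((nr4_cont c (N c)).comp continuous_subtype_val)
  · intro z w hzw
    have key1 : ∀ x, z.1.1.1 x = true ↔ w.1.1.1 x = true := by
      intro x
      have := congrFun hzw (Sum.inl x)
      rw [hf1, hf1] at this
      by_cases a : z.1.1.1 x = true <;> by_cases b : w.1.1.1 x = true <;> simp_all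
    apply Subtype.ext
    have key2 : ∀ z w : ↥(closure A), f z = f w → ∀ c (hc : E c), z.1 = lim E s c hc →
        (∀ x, z.1.1.1 x = true ↔ w.1.1.1 x = true) → z.1 = w.1 := by
      intro z w hzw c hc hz key1
      have hcd : c < d := hcl c hc (hz ▸ z.2)
      have h3 := congrFun hzw (Sum.inr c)
      rw [hf2, hf2, if_pos (by
        refine ⟨hcd, ?_, ?_⟩
        · rw [hz]
          exact (nr4_lim2 c hc c).2 rfl
        · intro i
          rw [hz]
          rfl)] at h3
      have h4 : w.1.1.2 c = true := by
        by_contra h5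
        rw [if_neg (by tauto)] at h3
        exact one_ne_zero h3
      rcases pt_cases w.1 with ⟨x, hx⟩ | ⟨c', hc', hx⟩ | hx
      · exfalso
        have h6 : w.1.1.1 x = true := by
          rw [hx]
          exact (nr4_iso1 x x).2 rfl
        rw [← key1, hz] at h6
        simp [nr4_lim1] at h6
      · rw [hx, nr4_lim2] at h4
        subst h4
        rw [hz, hx]
      · exfalso
        rw [hx] at h4
        simp [nr4_inf2] at h4
    rcases pt_cases z.1 with ⟨x, hx⟩ | ⟨c, hc, hx⟩ | hx
    · have h6 : z.1.1.1 x = true := by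
        rw [hx]
        exact (nr4_iso1 x x).2 rfl
      have h7 := (key1 x).1 h6
      rcases pt_cases w.1 with ⟨y, hy⟩ | ⟨c', hc', hy⟩ | hy
      · rw [hy, nr4_iso1] at h7
        subst h7
        rw [hx, hy]
      · rw [hy] at h7
        simp [nr4_lim1] at h7
      · rw [hy] at h7
        simp [nr4_inf1] at h7
    · exact key2 z w hzw c hc hx key1
    · rcases pt_cases w.1 with ⟨y, hy⟩ | ⟨c', hc', hy⟩ | hy
      · exfalso
        have h6 : w.1.1.1 y = true := by
          rw [hy]
          exact (nr4_iso1 y y).2 rfl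
        rw [← key1, hx] at h6
        simp [nr4_inf1] at h6
      · exact (key2 w z hzw.symm c' hc' hy (fun x => (key1 x).symm)).symm
      · rw [hx, hy]
  · intro z
    rcases pt_cases z.1 with ⟨x, hx⟩ | ⟨c, hc, hx⟩ | hx
    · have hsub : Function.support (f z) ⊆ {Sum.inl x} ∪
          Sum.inr '' {c | c < d ∧ E c ∧ ∃ n, N c ≤ n ∧ s c n = x} := by
        rintro (y | c) hy
        · left
          rw [Function.mem_support, hf1, hx] at hy
          have : (iso E s x).1.1 y = true := by
            by_contra h5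
            rw [if_neg h5] at hy
            exact hy rfl
          rw [nr4_iso1] at this
          rw [this]
          rfl
        · right
          rw [Function.mem_support, hf2, hx] at hy
          have h5 : c < d ∧ (iso E s x).1.2 c = true ∧ ∀ i : Fin (N c), (iso E s x).1.1 (s c i) = false := by
            by_contra h5
            rw [if_neg h5] at hy
            exact hy rfl
          obtain ⟨h6, h7, h8⟩ := h5
          rw [nr4_iso2] at h7
          obtain ⟨h9, n, h10⟩ := h7
          refine ⟨c, ⟨h6, h9, n, ?_, h10⟩, rfl⟩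
          by_contra h11
          push Not at h11
          have h12 := h8 ⟨n, h11⟩
          rw [show (iso E s x).1.1 (s c n) = true from (nr4_iso1 x (s c n)).2 h10] at h12
          simp at h12
      refine Set.Finite.subset (Set.Finite.union (Set.finite_singleton _) (Set.Finite.image _ ?_)) hsub
      apply Set.Subsingleton.finite
      rintro a ⟨ha1, ha2, n, ha3, ha4⟩ b ⟨hb1, hb2, m, hb3, hb4⟩
      by_contra hab
      exact hN a b ha1 hb1 ha2 hb2 hab n m ha3 hb3 (ha4.trans hb4.symm)
    · have hsub : Function.support (f z) ⊆ {Sum.inr c} := by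
        rintro (y | c') hy
        · exfalso
          rw [Function.mem_support, hf1, hx] at hy
          simp [nr4_lim1] at hy
        · rw [Function.mem_support, hf2, hx] at hy
          have h5 : c' < d ∧ (lim E s c hc).1.2 c' = true ∧ ∀ i : Fin (N c'), (lim E s c hc).1.1 (s c' i) = false := by
            by_contra h5
            rw [if_neg h5] at hy
            exact hy rfl
          have h6 := h5.2.1
          rw [nr4_lim2] at h6
          rw [h6]
          rfl
      exact Set.Finite.subset (Set.finite_singleton _) hsub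
    · have hsub : Function.support (f z) ⊆ ∅ := by
        rintro (y | c') hy
        · exfalso
          rw [Function.mem_support, hf1, hx] at hy
          simp [nr4_inf1] at hy
        · exfalso
          rw [Function.mem_support, hf2, hx] at hy
          simp [nr4_inf2] at hy
      exact Set.Finite.subset Set.finite_empty hsub
  · rintro z (x | c)
    · rw [hf1]
      split_ifs <;> simp
    · rw [hf2]
      split_ifs <;> simp

end Pool.Agent.H679NR
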