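import Mathlib
import Pool.Agent.H679NR.Lang

set_option autoImplicit false

open Set Cardinal Filter
open scoped Topology

namespace Pool.Agent.H679NR

open Pool.Agent.Helper584.RM

theorem nr11_bdd {κ : Cardinal.{0}} (hκ : κ.IsRegular) (s : Set κ.ord.ToType) (hs : #s < κ) :
    ∃ b, ∀ x ∈ s, x < b := by
  by_contra hcon
  push Not at hcon
  have h1 : IsCofinal s := by
    intro b
    obtain ⟨x, hx, hbx⟩ := hcon b
    exact ⟨x, hx, hbx⟩
  have h2 : Order.cof κ.ord.ToType ≤ #s := Order.cof_le h1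
  rw [Ordinal.cof_toType, hκ.cof_ord] at h2
  exact absurd hs (not_lt.mpr h2)

/- label nr11_. Plain proof: W = (Order.succ (𝔠 : Cardinal.{0})).ord.ToType with its order; succ 𝔠 is regular (Cardinal.isRegular_succ), #W = succ 𝔠 > 𝔠 = #(ℕ → Bool); every set of fewer than succ 𝔠 elements of W is bounded (initial segments Iio a have fewer than succ 𝔠 elements). -/
theorem exists_W : ∃ (W : Type) (_ : LinearOrder W), WellFoundedLT W ∧ (∀ a : W, ∃ b, a < b) ∧
    (∀ (a : W) (f : W → W), ∃ b, ∀ x, x < a → f x < b) ∧ (∀ u : ℕ → W, ∃ b, ∀ n, u n < b) ∧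
    (∀ x : W → ℕ → Bool, ∃ a b, a < b ∧ x a = x b) := by
  have hκ : (Order.succ (𝔠 : Cardinal.{0})).IsRegular := isRegular_succ aleph0_le_continuum
  have hal : ℵ₀ < Order.succ (𝔠 : Cardinal.{0}) := lt_of_le_of_lt aleph0_le_continuum (Order.lt_succ _)
  refine ⟨(Order.succ (𝔠 : Cardinal.{0})).ord.ToType, inferInstance, inferInstance, ?_, ?_, ?_, ?_⟩
  · intro a
    have h1 : #({a} : Set (Order.succ (𝔠 : Cardinal.{0})).ord.ToType) < Order.succ (𝔠 : Cardinal.{0}) := by
      rw [mk_singleton]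
      exact lt_trans one_lt_aleph0 hal
    obtain ⟨b, hb⟩ := nr11_bdd hκ {a} h1
    exact ⟨b, hb a rfl⟩
  · intro a f
    have h1 : #(Iio a) < Order.succ (𝔠 : Cardinal.{0}) := by
      have h := mk_Iio_lt a (by simp)
      simpa using h
    have h2 : #(f '' Iio a) < Order.succ (𝔠 : Cardinal.{0}) := lt_of_le_of_lt mk_image_le h1
    obtain ⟨b, hb⟩ := nr11_bdd hκ _ h2
    exact ⟨b, fun x hx => hb _ ⟨x, hx, rfl⟩⟩
  · intro u
    have h2 : #(range u) < Order.succ (𝔠 : Cardinal.{0}) := by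
      refine lt_of_le_of_lt mk_range_le ?_
      rw [mk_nat]
      exact hal
    obtain ⟨b, hb⟩ := nr11_bdd hκ _ h2
    exact ⟨b, fun n => hb _ ⟨n, rfl⟩⟩
  · intro x
    have hni : ¬ Function.Injective x := by
      intro hinj
      have h1 := mk_le_of_injective hinj
      rw [mk_ord_toType] at h1
      have h2 : #(ℕ → Bool) = 𝔠 := by simp
      rw [h2] at h1
      exact absurd (Order.lt_succ (𝔠 : Cardinal.{0})) (not_lt.mpr h1)
    rw [Function.Injective] at hni
    push Not at hni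
    obtain ⟨a, b, hab, hne⟩ := hni
    rcases lt_or_gt_of_ne hne with h | h
    · exact ⟨a, b, h, hab⟩
    · exact ⟨b, a, h, hab.symm⟩

end Pool.Agent.H679NR
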