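import Mathlib
import Pool.Agent.H679NR.Chain
import Pool.Agent.H679NR.Lang
import Pool.Agent.H679NR.Pos

set_option autoImplicit false

open Set Cardinal Filter
open scoped Topology

namespace Pool.Agent.H679NR

open Pool.Agent.Helper584.RM



section

universe u v w

variable {P : Type u} [Preorder P]

theorem nr8_mem_fimp {φ ψ : Set P} {p : P} :
    p ∈ fimp φ ψ ↔ ∀ q ≤ p, q ∈ φ → ∃ r ≤ q, r ∈ ψ := by
  constructor
  · intro h q hq hφ
    by_contra hc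
    push Not at hc
    exact h q hq ⟨hφ, hc⟩
  · rintro h q hq ⟨h1, h2⟩
    obtain ⟨r, hr, hrψ⟩ := h q hq h1
    exact h2 r hr hrψ

theorem nr8_mem_fex {ι : Sort v} {φ : ι → Set P} {p : P} :
    p ∈ fex φ ↔ ∀ q ≤ p, ∃ i, ∃ r ≤ q, r ∈ φ i := by
  constructor
  · intro h q hq
    by_contra hc
    push Not at hc
    exact h q hq hc
  · intro h q hq hc
    obtain ⟨i, r, hr, hri⟩ := h q hq
    exact hc i r hr hri

theorem nr8_meets_down {N : Set P} {p q : P} (h : p ∈ meets N) (hq : q ≤ p) : q ∈ meets N :=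
  fun r hr => h r (hr.trans hq)

theorem nr8_fun_ex {X : Type v} {Y : Type w} {R : X → Y → Set P} {p : P} (h : p ∈ IsFun R)
    {q : P} (hq : q ≤ p) (x : X) : ∃ y, ∃ r ≤ q, r ∈ meets (R x y) :=
  nr8_mem_fex.1 (h.1 x) q hq

theorem nr8_fun_eq {X : Type v} {Y : Type w} {R : X → Y → Set P} {p : P} (h : p ∈ IsFun R)
    {q : P} (hq : q ≤ p) {x : X} {y y' : Y} (h1 : q ∈ meets (R x y)) (h2 : q ∈ meets (R x y')) :
    y = y' := by
  obtain ⟨r, _, hr⟩ := nr8_mem_fimp.1 (h.2 x y y') q hq ⟨h1, h2⟩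
  exact hr

end

/- TARGETS -/
theorem force_reg {W : Type} [LinearOrder W] [WellFoundedLT W] (hl : ∀ a : W, ∃ b, a < b)
    (hr : ∀ (a : W) (f : W → W), ∃ b, ∀ x, x < a → f x < b) (p : Cond W) :
    p ∈ Reg (Cond W) W := by
  classical
  refine ⟨fun a => ?_, fun a F => ?_⟩
  · rw [nr8_mem_fex]
    intro q _
    obtain ⟨b, hb⟩ := hl a
    exact ⟨b, q, le_rfl, hb⟩
  · rw [nr8_mem_fimp]
    intro q _ hF
    obtain ⟨g, hg1, hg2, hg3⟩ := chain hl hr q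
      (fun x => {r | r ≤ q → ∃ y, r ∈ meets (F x y)}) (fun x r0 => by
        by_cases h : r0 ≤ q
        · obtain ⟨y, r, hr0, hry⟩ := nr8_fun_ex hF h x
          exact ⟨r, hr0, fun _ => ⟨y, hry⟩⟩
        · exact ⟨r0, le_rfl, fun h' => absurd h' h⟩)
    have h1 : ∀ x, ∃ y, g x ∈ meets (F x y) := fun x => hg2 x (hg1 x)
    choose y hy using h1
    obtain ⟨b, hb⟩ := hr a y
    refine ⟨g a, hg1 a, ?_⟩
    rw [nr8_mem_fex]
    intro r hra
    refine ⟨b, r, le_rfl, fun x y' => ?_⟩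
    rw [nr8_mem_fimp]
    rintro t htr ⟨hxa, htm⟩
    have hxa' : x < a := hxa
    have h2 : t ≤ g x := (htr.trans hra).trans (hg3 x a hxa'.le)
    have h3 : y' = y x :=
      nr8_fun_eq hF (h2.trans (hg1 x)) htm (nr8_meets_down (hy x) h2)
    refine ⟨t, le_rfl, ?_⟩
    show y' < b
    rw [h3]
    exact hb x hxa'

theorem nr8_step {W : Type} [LinearOrder W] [WellFoundedLT W] (hl : ∀ a : W, ∃ b, a < b)
    (hr : ∀ (a : W) (f : W → W), ∃ b, ∀ x, x < a → f x < b)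
    (hu : ∀ u : ℕ → W, ∃ b, ∀ n, u n < b) {R : ℕ → Bool → Set (Cond W)} {q : Cond W}
    (hq : q ∈ IsFun R) (r0 : Cond W) (hr0 : r0 ≤ q) :
    ∃ r ≤ r0, ∃ v : ℕ → Bool, ∀ n, r ∈ meets (R n (v n)) := by
  classical
  choose sc hsc using hl
  set u : ℕ → W := fun n => Nat.rec r0.top (fun _ x => sc x) n with hudef
  have hustep : ∀ n, u n < u (n + 1) := fun n => hsc (u n)
  have hum : StrictMono u := strictMono_nat_of_lt_succ hustep
  obtain ⟨b, hb⟩ := hu u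
  obtain ⟨g, hg1, hg2, hg3⟩ := chain (fun a => ⟨sc a, hsc a⟩) hr r0
    (fun x => {r | r ≤ r0 → ∀ n, u n = x → ∃ i, r ∈ meets (R n i)}) (fun x r1 => by
      by_cases h : r1 ≤ r0
      · by_cases hx : ∃ n, u n = x
        · obtain ⟨n, hn⟩ := hx
          obtain ⟨i, r, hr1, hri⟩ := nr8_fun_ex hq (h.trans hr0) n
          refine ⟨r, hr1, fun _ n' hn' => ?_⟩
          have : n' = n := hum.injective (hn'.trans hn.symm)
          subst this
          exact ⟨i, hri⟩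
        · exact ⟨r1, le_rfl, fun _ n hn => absurd ⟨n, hn⟩ hx⟩
      · exact ⟨r1, le_rfl, fun h' => absurd h' h⟩)
  have h1 : ∀ n, ∃ i, g b ∈ meets (R n i) := by
    intro n
    obtain ⟨i, hi⟩ := hg2 (u n) (hg1 _) n rfl
    exact ⟨i, nr8_meets_down hi (hg3 _ _ (hb n).le)⟩
  choose v hv using h1
  exact ⟨g b, hg1 b, v, hv⟩

theorem force_big {W : Type} [LinearOrder W] [WellFoundedLT W] (hl : ∀ a : W, ∃ b, a < b)
    (hr : ∀ (a : W) (f : W → W), ∃ b, ∀ x, x < a → f x < b)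
    (hu : ∀ u : ℕ → W, ∃ b, ∀ n, u n < b)
    (hbig : ∀ x : W → ℕ → Bool, ∃ a b, a < b ∧ x a = x b) (p : Cond W) :
    p ∈ Big (Cond W) W := by
  classical
  intro X
  rw [nr8_mem_fimp]
  intro q _ hX
  obtain ⟨g, hg1, hg2, hg3⟩ := chain hl hr q
    (fun a => {r | r ≤ q → ∃ v : ℕ → Bool, ∀ n, r ∈ meets (X a n (v n))}) (fun a r0 => by
      by_cases h : r0 ≤ q
      · obtain ⟨r, hr0, v, hv⟩ := nr8_step hl hr hu (hX a) r0 h
        exact ⟨r, hr0, fun _ => ⟨v, hv⟩⟩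
      · exact ⟨r0, le_rfl, fun h' => absurd h' h⟩)
  have h1 : ∀ a, ∃ v : ℕ → Bool, ∀ n, g a ∈ meets (X a n (v n)) := fun a => hg2 a (hg1 a)
  choose v hv using h1
  obtain ⟨a, b, hab, hvab⟩ := hbig v
  refine ⟨g b, hg1 b, ?_⟩
  rw [nr8_mem_fex]
  intro r hrb
  refine ⟨a, r, le_rfl, ?_⟩
  rw [nr8_mem_fex]
  intro t htr
  refine ⟨b, t, le_rfl, hab, fun n i => ?_⟩
  rw [nr8_mem_fimp]
  intro s hst hsm
  have hsb : s ≤ g b := (hst.trans htr).trans hrb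
  have hsa : s ≤ g a := hsb.trans (hg3 a b hab.le)
  have h2 : i = v a n :=
    nr8_fun_eq (hX a) (hsa.trans (hg1 a)) hsm (nr8_meets_down (hv a n) hsa)
  refine ⟨s, le_rfl, ?_⟩
  rw [h2, hvab]
  exact nr8_meets_down (hv b n) hsb

end Pool.Agent.H679NR
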