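import Mathlib
import Pool.Agent.H679NR.Bdd
import Pool.Agent.H679NR.Lang
import Pool.Agent.H679NR.Space

set_option autoImplicit false

open Set Cardinal Filter
open scoped Topology

namespace Pool.Agent.H679NR

open Pool.Agent.Helper584.RM



lemma nr5_tendsto_iso {W : Type} [LinearOrder W] {E : W → Prop} {s : W → ℕ → W}
    (hs : ∀ c, E c → (∀ n, s c n < s c (n + 1)) ∧ (∀ n, s c n < c) ∧ ∀ a, a < c → ∃ n, a < s c n)
    (c : W) (hc : E c) :
    Tendsto (fun n => (iso E s (s c n) : Sp E s)) atTop (𝓝 (lim E s c hc)) := by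
  classical
  have hmono : StrictMono (s c) := strictMono_nat_of_lt_succ (hs c hc).1
  have hev : ∀ y : W, ∀ᶠ n in atTop, s c n ≠ y := by
    intro y
    by_cases hy : ∃ n, s c n = y
    · obtain ⟨n0, hn0⟩ := hy
      filter_upwards [eventually_gt_atTop n0] with n hn heq
      have := hmono hn
      rw [heq, hn0] at this
      exact lt_irrefl _ this
    · push Not at hy
      exact Eventually.of_forall hy
  rw [tendsto_subtype_rng, Prod.tendsto_iff]
  constructor
  · rw [tendsto_pi_nhds]
    intro y
    refine tendsto_const_nhds.congr' ?_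
    filter_upwards [hev y] with n hn
    show false = decide (y = s c n)
    exact (decide_eq_false (fun h => hn h.symm)).symm
  · rw [tendsto_pi_nhds]
    intro d
    refine tendsto_const_nhds.congr' ?_
    by_cases hdc : d = c
    · subst hdc
      refine Eventually.of_forall fun n => ?_
      show decide (d = d) = decide (E d ∧ ∃ m, s d m = s d n)
      rw [decide_eq_true rfl, eq_comm, decide_eq_true_iff]
      exact ⟨hc, n, rfl⟩
    · have key : ∀ᶠ n in atTop, ¬ (E d ∧ ∃ m, s d m = s c n) := by
        by_cases hd : E d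
        · rcases lt_or_gt_of_ne hdc with hlt | hgt
          · obtain ⟨n0, hn0⟩ := (hs c hc).2.2 d hlt
            filter_upwards [eventually_ge_atTop n0] with n hn
            rintro ⟨_, m, hm⟩
            have h1 := (hs d hd).2.1 m
            have h2 : s c n0 ≤ s c n := hmono.monotone hn
            rw [hm] at h1
            exact absurd (lt_of_lt_of_le hn0 h2) (not_lt.2 h1.le)
          · obtain ⟨m0, hm0⟩ := (hs d hd).2.2 c hgt
            have hmd : StrictMono (s d) := strictMono_nat_of_lt_succ (hs d hd).1
            have h3 : ∀ᶠ n in atTop, ∀ m ∈ Finset.range m0, s c n ≠ s d m := by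
              rw [Filter.eventually_all_finset]
              intro m _
              exact hev _
            filter_upwards [h3] with n hn
            rintro ⟨_, m, hm⟩
            have h4 : s c n < c := (hs c hc).2.1 n
            have h5 : m < m0 := by
              by_contra hcon
              have h6 : s d m0 ≤ s d m := hmd.monotone (not_lt.1 hcon)
              rw [hm] at h6
              exact absurd (hm0.trans_le h6) (not_lt.2 h4.le)
            exact hn m (Finset.mem_range.2 h5) hm.symm
        · exact Eventually.of_forall fun n h => hd h.1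
      filter_upwards [key] with n hn
      show decide (d = c) = decide (E d ∧ ∃ m, s d m = s c n)
      rw [decide_eq_false hdc, decide_eq_false hn]

lemma nr5_tendsto_lim {W : Type} [LinearOrder W] {E : W → Prop} {s : W → ℕ → W} :
    Tendsto (fun c : {c : W // E c} => (lim E s c.1 c.2 : Sp E s)) cofinite (𝓝 (inf E s)) := by
  classical
  rw [tendsto_subtype_rng, Prod.tendsto_iff]
  constructor
  · rw [tendsto_pi_nhds]
    intro y
    exact tendsto_const_nhds
  · rw [tendsto_pi_nhds]
    intro d
    refine tendsto_const_nhds.congr' ?_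
    have h1 : ({c : {c : W // E c} | c.1 = d}).Finite := by
      refine Set.Subsingleton.finite ?_
      intro a ha b hb
      exact Subtype.ext (ha.trans hb.symm)
    filter_upwards [h1.compl_mem_cofinite] with c hc
    show false = decide (d = c.1)
    exact (decide_eq_false (fun h => hc h.symm)).symm

/- TARGET -/
theorem not_corson {W : Type} [LinearOrder W] [WellFoundedLT W] {E : W → Prop} {s : W → ℕ → W}
    (h : NonReflWith W E s) (h2 : Reg₀ W) (hu : ∀ u : ℕ → W, ∃ b, ∀ n, u n < b) :
    ¬ ∃ (Γ : Type) (f : Sp E s → (Γ → ℝ)), Continuous f ∧ Function.Injective f ∧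
      ∀ x, (Function.support (f x)).Countable := by
  classical
  rintro ⟨Γ, f, hf, hinj, hcount⟩
  have hcoord : ∀ t : Γ, Continuous fun z => f z t := fun t => (continuous_apply t).comp hf
  -- choice of coordinates and indices
  have hch : ∀ c : {c : W // E c}, ∃ (t : Γ) (n : ℕ),
      f (lim E s c.1 c.2) t ≠ f (inf E s) t ∧ f (iso E s (s c.1 n)) t ≠ f (inf E s) t := by
    intro c
    have h1 : lim E s c.1 c.2 ≠ inf E s := by
      intro heq
      have h2 : (lim E s c.1 c.2).1.2 c.1 = (inf E s).1.2 c.1 := by rw [heq]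
      have h3 : (lim E s c.1 c.2).1.2 c.1 = true := decide_eq_true rfl
      have h4 : (inf E s).1.2 c.1 = false := rfl
      rw [h3, h4] at h2
      exact absurd h2 (by decide)
    have h2 : f (lim E s c.1 c.2) ≠ f (inf E s) := fun h => h1 (hinj h)
    obtain ⟨t, ht⟩ := Function.ne_iff.1 h2
    have h3 : Tendsto (fun n => f (iso E s (s c.1 n)) t) atTop (𝓝 (f (lim E s c.1 c.2) t)) :=
      ((hcoord t).tendsto _).comp (nr5_tendsto_iso h.1 c.1 c.2)
    obtain ⟨n, hn⟩ := (h3.eventually_ne ht).exists
    exact ⟨t, n, ht, hn⟩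
  choose t n ht hn using hch
  -- pressing down
  let g : W → W := fun c => if hc : E c then s c (n ⟨c, hc⟩) else c
  have hg : ∀ c, E c → g c < c := by
    intro c hc
    have : g c = s c (n ⟨c, hc⟩) := dif_pos hc
    rw [this]
    exact (h.1 c hc).2.1 _
  obtain ⟨x, hx⟩ := fodor h2 hu h.2.1 g hg
  -- the exceptional set is countable
  have hfin : ∀ (τ : Γ) (k : ℕ), ({c : {c : W // E c} |
      1 / ((k : ℝ) + 1) ≤ |f (lim E s c.1 c.2) τ - f (inf E s) τ|}).Finite := by
    intro τ k
    have h3 : Tendsto (fun c : {c : W // E c} => f (lim E s c.1 c.2) τ) cofinite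
        (𝓝 (f (inf E s) τ)) := ((hcoord τ).tendsto _).comp nr5_tendsto_lim
    have h4 : ∀ᶠ c : {c : W // E c} in cofinite,
        |f (lim E s c.1 c.2) τ - f (inf E s) τ| < 1 / ((k : ℝ) + 1) := by
      have := (Metric.tendsto_nhds.1 h3) (1 / ((k : ℝ) + 1)) (by positivity)
      simpa only [Real.dist_eq] using this
    rw [Filter.eventually_cofinite] at h4
    refine h4.subset ?_
    intro c hc
    exact not_lt.2 hc
  have hTc : (Function.support (f (iso E s x)) ∪ Function.support (f (inf E s))).Countable :=
    (hcount _).union (hcount _)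
  have hbig : ({c : {c : W // E c} | g c.1 = x}).Countable := by
    have hsub : ({c : {c : W // E c} | g c.1 = x}) ⊆
        ⋃ τ ∈ (Function.support (f (iso E s x)) ∪ Function.support (f (inf E s))), ⋃ k : ℕ,
          {c : {c : W // E c} | 1 / ((k : ℝ) + 1) ≤ |f (lim E s c.1 c.2) τ - f (inf E s) τ|} := by
      intro c hc
      have h5 : s c.1 (n c) = x := by
        have h6 : g c.1 = s c.1 (n ⟨c.1, c.2⟩) := dif_pos c.2
        rw [← h6]
        exact hc
      have h7 := hn c
      rw [h5] at h7
      have h8 : t c ∈ Function.support (f (iso E s x)) ∪ Function.support (f (inf E s)) := by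
        by_contra hcon
        rw [Set.mem_union, Function.mem_support, Function.mem_support] at hcon
        push Not at hcon
        exact h7 (hcon.1.trans hcon.2.symm)
      have h9 : 0 < |f (lim E s c.1 c.2) (t c) - f (inf E s) (t c)| :=
        abs_pos.2 (sub_ne_zero.2 (ht c))
      obtain ⟨k, hk⟩ := exists_nat_one_div_lt h9
      exact Set.mem_biUnion h8 (Set.mem_iUnion.2 ⟨k, hk.le⟩)
    refine Set.Countable.mono hsub ?_
    exact hTc.biUnion fun τ _ => Set.countable_iUnion fun k => (hfin τ k).countable
  -- but it is unbounded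
  obtain ⟨a₀, ha₀⟩ : ∃ a₀ : {c : W // E c}, g a₀.1 = x := by
    obtain ⟨b, _⟩ := hu fun _ => x
    obtain ⟨c, _, hc, hcx⟩ := hx b
    exact ⟨⟨c, hc⟩, hcx⟩
  obtain ⟨u, hu2⟩ := hbig.exists_eq_range ⟨a₀, ha₀⟩
  obtain ⟨b, hb⟩ := hu fun i => (u i).1
  obtain ⟨c, hbc, hc, hcx⟩ := hx b
  have h10 : (⟨c, hc⟩ : {c : W // E c}) ∈ ({c : {c : W // E c} | g c.1 = x}) := hcx
  rw [hu2] at h10
  obtain ⟨i, hi⟩ := h10
  have h11 := hb i
  simp only [hi] at h11
  exact lt_asymm hbc h11

end Pool.Agent.H679NR
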