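import Mathlib
import Pool.Agent.H679NR.Lang
import Pool.Agent.H679NR.Pos

set_option autoImplicit false

open Set Cardinal Filter
open scoped Topology

namespace Pool.Agent.H679NR

open Pool.Agent.Helper584.RM

section nr10

variable {P : Type} [Preorder P]

theorem nr10_meets_const {h : Prop} {p : P} : p ∈ meets ({_p | h} : Set P) ↔ h := by
  constructor
  · intro hp
    obtain ⟨r, _, s, hs, _⟩ := hp p le_rfl
    exact hs
  · intro hh q _
    exact ⟨q, le_rfl, q, hh, le_rfl⟩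

theorem nr10_fimp {φ ψ : Set P} {p : P} (h : ∀ q, q ≤ p → q ∈ φ → q ∈ ψ) : p ∈ fimp φ ψ := by
  rintro q hq ⟨h1, h2⟩
  exact h2 q le_rfl (h q hq h1)

theorem nr10_fex {ι : Sort*} {φ : ι → Set P} {p : P} (h : ∀ q, q ≤ p → ∃ i, ∃ r, r ≤ q ∧ r ∈ φ i) :
    p ∈ fex φ := by
  intro q hq hall
  obtain ⟨i, r, hr, hi⟩ := h q hq
  exact hall i r hr hi

theorem nr10_fimp_ground {h : Prop} {ψ : Set P} {p : P} (hp : p ∈ fimp (fground h) ψ) (hh : h) :
    ∃ r, r ≤ p ∧ r ∈ ψ := by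
  by_contra hcon
  push Not at hcon
  exact hp p le_rfl ⟨hh, fun r hr => hcon r hr⟩

theorem nr10_fex_elim {ι : Sort*} {φ : ι → Set P} {p : P} (hp : p ∈ fex φ) :
    ∃ i, ∃ r, r ≤ p ∧ r ∈ φ i := by
  by_contra hcon
  push Not at hcon
  exact hp p le_rfl (fun i r hr => hcon i r hr)

theorem nr10_unb {W : Type} [LinearOrder W] {D : Set W} {d : W} {p : P} :
    p ∈ UnbBelow (fun x : W => ({_p | x ∈ D} : Set P)) d ↔
      ∀ a, a < d → ∃ b, (a < b ∧ b < d) ∧ b ∈ D := by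
  constructor
  · intro hp a ha
    obtain ⟨r, _, hr⟩ := nr10_fimp_ground (hp a) ha
    obtain ⟨b, t, _, ht⟩ := nr10_fex_elim hr
    exact ⟨b, ht.1, nr10_meets_const.1 ht.2⟩
  · intro h a
    refine nr10_fimp fun q _ ha => ?_
    obtain ⟨b, hb1, hb2⟩ := h a ha
    exact nr10_fex fun r _ => ⟨b, r, le_rfl, hb1, nr10_meets_const.2 hb2⟩

end nr10

theorem force_ladders {W : Type} [LinearOrder W] [WellFoundedLT W] :
    ∃ S : W → ℕ → W → Set (Cond W), ∀ p : Cond W,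
      p ∈ (fall fun c : W => fimp (meets (gen c)) (fand (IsFun (S c)) (Ladder (S c) c))) := by
  classical
  have hex : ∀ c : W, ∃ l : ℕ → W, (∃ l : ℕ → W, (∀ n, l n < l (n + 1)) ∧ (∀ n, l n < c) ∧
      ∀ a, a < c → ∃ n, a < l n) → (∀ n, l n < l (n + 1)) ∧ (∀ n, l n < c) ∧
      ∀ a, a < c → ∃ n, a < l n := by
    intro c
    by_cases h : ∃ l : ℕ → W, (∀ n, l n < l (n + 1)) ∧ (∀ n, l n < c) ∧ ∀ a, a < c → ∃ n, a < l n
    · obtain ⟨l, hl⟩ := h
      exact ⟨l, fun _ => hl⟩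
    · exact ⟨fun _ => c, fun h' => absurd h' h⟩
  choose l hl using hex
  refine ⟨fun c n b => {_p | l c n = b}, fun p c => nr10_fimp fun q _ hq => ?_⟩
  obtain ⟨r, _, t, ht, _⟩ := hq q le_rfl
  obtain ⟨h1, h2, h3⟩ := hl c (t.cof c ht)
  refine ⟨⟨fun x => nr10_fex fun r _ => ⟨l c x, r, le_rfl, nr10_meets_const.2 rfl⟩,
    fun x y y' => nr10_fimp fun r _ hr => ?_⟩, fun n a b => nr10_fimp fun r _ hr => ?_,
    fun n a => nr10_fimp fun r _ hr => ?_, fun a => nr10_fimp fun r _ hr => ?_⟩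
  · exact (nr10_meets_const.1 hr.1).symm.trans (nr10_meets_const.1 hr.2)
  · have e1 : l c n = a := nr10_meets_const.1 hr.1
    have e2 : l c (n + 1) = b := nr10_meets_const.1 hr.2
    show a < b
    rw [← e1, ← e2]
    exact h1 n
  · have e1 : l c n = a := nr10_meets_const.1 hr
    show a < c
    rw [← e1]
    exact h2 n
  · obtain ⟨n, hn⟩ := h3 a hr
    exact nr10_fex fun u _ => ⟨n, u, le_rfl, nr10_fex fun v _ =>
      ⟨l c n, v, le_rfl, nr10_meets_const.2 rfl, hn⟩⟩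

theorem force_nst {W : Type} [LinearOrder W] [WellFoundedLT W] (p : Cond W) :
    p ∈ (fall fun d : W => fimp (fground (IsLim d))
      (fex fun D : W → Set (Cond W) => fand (UnbBelow D d)
        (fand (fall fun x : W => fimp (fand (fground (IsLim x ∧ x < d)) (UnbBelow D x))
            (meets (D x)))
          (fall fun x : W => fnot (fand (fground (x < d)) (fand (meets (D x)) (meets (gen x)))))))) := by
  intro d
  refine nr10_fimp fun q _ hd => nr10_fex fun q' _ => ?_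
  let r : Cond W := lift q' (max q'.top d) (le_max_left _ _)
  obtain ⟨D, hD1, hD2, hD3⟩ := r.nst d (le_max_right _ _) hd
  refine ⟨fun x => {_p | x ∈ D}, r, lift_le _ _ _, nr10_unb.2 hD1, fun x => nr10_fimp fun u _ hu => ?_,
    fun x u hu hx => ?_⟩
  · exact nr10_meets_const.2 (hD2 x hu.1 (nr10_unb.1 hu.2))
  · obtain ⟨hxd, hxD, hxg⟩ := hx
    obtain ⟨v, hv, t, ht, hvt⟩ := hxg u le_rfl
    have h1 : x ∈ v.s := (hvt.2 x (t.lt x ht)).2 ht
    have hvr : v ≤ r := hv.trans hu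
    have h2 : x < r.top := lt_of_lt_of_le hxd (le_max_right _ _)
    have h3 : x ∈ r.s := (hvr.2 x h2).1 h1
    exact hD3 x hxd (nr10_meets_const.1 hxD) h3

end Pool.Agent.H679NR
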