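import Mathlib
import Pool.Agent.H679NR.Lang
import Pool.Agent.H679NR.Pos

set_option autoImplicit false

open Set Cardinal Filter
open scoped Topology

namespace Pool.Agent.H679NR

open Pool.Agent.Helper584.RM

section lang

variable {P : Type} [Preorder P]

theorem nr9_fnot_mono {φ : Set P} {p q : P} (h : q ≤ p) (hp : p ∈ fnot φ) : q ∈ fnot φ :=
  fun r hr => hp r (hr.trans h)

theorem nr9_meets_mono {N : Set P} {p q : P} (h : q ≤ p) (hp : p ∈ meets N) : q ∈ meets N :=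
  fun r hr => hp r (hr.trans h)

theorem nr9_meets_dense {N : Set P} {p : P} (h : ∀ q ≤ p, ∃ r ≤ q, r ∈ meets N) : p ∈ meets N := by
  intro q hq
  obtain ⟨r, hr, hrN⟩ := h q hq
  obtain ⟨r', hr', s, hs, hrs⟩ := hrN r le_rfl
  exact ⟨r', hr'.trans hr, s, hs, hrs⟩

theorem nr9_mem_meets {N : Set P} {p s : P} (hs : s ∈ N) (h : p ≤ s) : p ∈ meets N :=
  fun q hq => ⟨q, le_rfl, s, hs, hq.trans h⟩

theorem nr9_of_fex {ι : Sort*} {φ : ι → Set P} {p : P} (h : p ∈ fex φ) :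
    ∃ r ≤ p, ∃ i, r ∈ φ i := by
  have h1 := h p le_rfl
  by_contra hcon
  push Not at hcon
  exact h1 fun i q hq => hcon q hq i

theorem nr9_fex_intro {ι : Sort*} {φ : ι → Set P} {p : P} (i : ι) (h : ∀ q ≤ p, q ∈ φ i) :
    p ∈ fex φ := fun q hq hq' => hq' i q le_rfl (h q hq)

theorem nr9_mp {φ : Set P} {N : Set P} {p : P} (h : p ∈ fimp φ (meets N)) (hφ : ∀ q ≤ p, q ∈ φ) :
    p ∈ meets N := by
  refine nr9_meets_dense fun q hq => ?_
  by_contra hcon
  push Not at hcon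
  exact h q hq ⟨hφ q hq, fun r hr => hcon r hr⟩

end lang

theorem nr9_seq {X : Type} (R : X → X → Prop) (h : ∀ x, ∃ y, R x y) (x₀ : X) :
    ∃ f : ℕ → X, f 0 = x₀ ∧ ∀ n, R (f n) (f (n + 1)) := by
  choose g hg using h
  exact ⟨fun n => Nat.rec x₀ (fun _ x => g x) n, rfl, fun n => hg _⟩

/-- the union of a descending sequence of conditions, with the limit added -/
theorem nr9_lim {W : Type} [LinearOrder W] [WellFoundedLT W] (hl : ∀ a : W, ∃ b, a < b)
    (Q : ℕ → Cond W) (hQ : ∀ n, Q (n + 1) ≤ Q n) (hlt : ∀ n, (Q n).top < (Q (n + 1)).top)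
    (d : W) (hd1 : ∀ n, (Q n).top < d) (hd2 : ∀ x, (∀ n, (Q n).top < x) → d ≤ x) :
    ∃ r : Cond W, (∀ n, r ≤ Q n) ∧ d ∈ r.s := by
  have hanti : ∀ m n, m ≤ n → Q n ≤ Q m := fun m n h => antitone_nat_of_succ_le hQ h
  have hmono : StrictMono fun n => (Q n).top := strictMono_nat_of_lt_succ hlt
  have hbelow : ∀ a, a < d → ∃ n, a < (Q n).top := by
    intro a ha
    by_contra hcon
    push Not at hcon
    exact absurd (hd2 a fun n => (hlt n).trans_le (hcon (n + 1))) (not_le.2 ha)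
  obtain ⟨b, hb⟩ := hl d
  have hagree : ∀ n x, x < (Q n).top → (x ∈ (⋃ n, (Q n).s) ∪ {d} ↔ x ∈ (Q n).s) := by
    intro n x hx
    constructor
    · rintro (h | h)
      · obtain ⟨m, hm⟩ := mem_iUnion.1 h
        rcases le_total m n with hmn | hmn
        · exact ((hanti m n hmn).2 x ((Q m).lt x hm)).2 hm
        · exact ((hanti n m hmn).2 x hx).1 hm
      · rw [mem_singleton_iff.1 h] at hx
        exact absurd hx (not_lt.2 (hd1 n).le)
    · intro h
      exact Or.inl (mem_iUnion.2 ⟨n, h⟩)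
  have hsd : ∀ x ∈ (⋃ n, (Q n).s) ∪ {d}, x ≤ d := by
    rintro x (h | h)
    · obtain ⟨m, hm⟩ := mem_iUnion.1 h
      exact (((Q m).lt x hm).trans (hd1 m)).le
    · exact (mem_singleton_iff.1 h).le
  have hcof : ∀ c ∈ (⋃ n, (Q n).s) ∪ {d}, ∃ l : ℕ → W, (∀ n, l n < l (n + 1)) ∧ (∀ n, l n < c) ∧
      ∀ a, a < c → ∃ n, a < l n := by
    rintro c (h | h)
    · obtain ⟨m, hm⟩ := mem_iUnion.1 h
      exact (Q m).cof c hm
    · rw [mem_singleton_iff.1 h]
      exact ⟨fun n => (Q n).top, hlt, hd1, hbelow⟩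
  refine ⟨⟨b, (⋃ n, (Q n).s) ∪ {d}, fun x hx => (hsd x hx).trans_lt hb, hcof, ?_⟩, ?_, ?_⟩
  · intro e he hle
    by_cases hcase : ∃ n, e ≤ (Q n).top
    · obtain ⟨n, hn⟩ := hcase
      obtain ⟨D, hD1, hD2, hD3⟩ := (Q n).nst e hn hle
      exact ⟨D, hD1, hD2, fun x hx hxD hxs => hD3 x hx hxD ((hagree n x (hx.trans_le hn)).1 hxs)⟩
    · push Not at hcase
      rcases (hd2 e hcase).eq_or_lt with h | h
      · subst h
        have hw : ∀ n, ∃ w, (Q n).top < w ∧ ∀ x, (Q n).top < x → w ≤ x := by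
          intro n
          obtain ⟨w, hw1, hw2⟩ := WellFounded.has_min (wellFounded_lt (α := W))
            {x | (Q n).top < x} (hl _)
          exact ⟨w, hw1, fun x hx => not_lt.1 (hw2 x hx)⟩
        choose w hw1 hw2 using hw
        have hwm : ∀ m n, m ≤ n → w m ≤ w n := fun m n h =>
          hw2 m _ ((hmono.monotone h).trans_lt (hw1 n))
        have hwd : ∀ n, w n < d := fun n => (hw2 n _ (hlt n)).trans_lt (hd1 (n + 1))
        refine ⟨range w, ?_, ?_, ?_⟩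
        · intro a ha
          obtain ⟨n, hn⟩ := hbelow a ha
          exact ⟨w n, ⟨hn.trans (hw1 n), hwd n⟩, mem_range_self n⟩
        · rintro x ⟨hx1, hx2⟩ hx3
          exfalso
          obtain ⟨n, hn⟩ := hbelow x hx2
          have hk : ∀ k : ℕ, ∃ m, k ≤ m ∧ w m < x := by
            intro k
            induction k with
            | zero =>
              obtain ⟨a, ha⟩ := hx1.1
              obtain ⟨_, ⟨_, h2⟩, ⟨m, rfl⟩⟩ := hx3 a ha
              exact ⟨m, Nat.zero_le m, h2⟩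
            | succ k ih =>
              obtain ⟨m, hm, hmx⟩ := ih
              obtain ⟨_, ⟨h1, h2⟩, ⟨m', rfl⟩⟩ := hx3 (w m) hmx
              refine ⟨m', ?_, h2⟩
              by_contra hcon
              exact absurd (hwm m' m (by omega)) (not_le.2 h1)
          obtain ⟨m, hm, hmx⟩ := hk n
          have h1 : (Q n).top ≤ (Q m).top := hmono.monotone hm
          exact lt_irrefl _ (hmx.trans (hn.trans_le (h1.trans (hw1 m).le)))
        · rintro x hx ⟨n, rfl⟩ hxs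
          obtain ⟨l, hl1, hl2, hl3⟩ := hcof (w n) hxs
          obtain ⟨i, hi⟩ := hl3 _ (hw1 n)
          exact absurd (hw2 n _ hi) (not_le.2 (hl2 i))
      · refine ⟨{x | d < x}, ?_, ?_, ?_⟩
        · intro a ha
          obtain ⟨y, hy1, hy2⟩ := hle.2 (max a d) (max_lt ha h)
          exact ⟨y, ⟨(le_max_left _ _).trans_lt hy1, hy2⟩, (le_max_right _ _).trans_lt hy1⟩
        · rintro x ⟨hx1, hx2⟩ hx3
          obtain ⟨a, ha⟩ := hx1.1
          obtain ⟨y, ⟨_, hy2⟩, hy3⟩ := hx3 a ha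
          exact lt_trans hy3 hy2
        · intro x _ hxd hxs
          exact absurd (hsd x hxs) (not_le.2 hxd)
  · intro n
    exact ⟨((hd1 n).trans hb).le, fun x hx => hagree n x hx⟩
  · exact Or.inr (mem_singleton d)

theorem force_stat {W : Type} [LinearOrder W] [WellFoundedLT W] (hl : ∀ a : W, ∃ b, a < b)
    (hu : ∀ u : ℕ → W, ∃ b, ∀ n, u n < b) (p : Cond W) :
    p ∈ (fall fun C : W → Set (Cond W) =>
      fimp (fand (Unb C) (fall fun d : W => fimp (fand (fground (IsLim d)) (UnbBelow C d))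
          (meets (C d))))
        (fex fun d : W => fand (meets (C d)) (meets (gen d)))) := by
  rintro C q - ⟨⟨hU, hC⟩, hq⟩
  -- the sequence
  have hstep : ∀ x : {x : Cond W // x ≤ q}, ∃ y : {x : Cond W // x ≤ q}, y.1 ≤ x.1 ∧
      ∃ b, x.1.top < b ∧ b < y.1.top ∧ y.1 ∈ meets (C b) := by
    rintro ⟨x, hx⟩
    have h1 : x ∈ fex fun b : W => fand (fground (x.top < b)) (meets (C b)) :=
      nr9_fnot_mono hx (hU x.top)
    obtain ⟨r, hr, b, hb, hrb⟩ := nr9_of_fex h1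
    obtain ⟨t, ht⟩ := hl (max r.top b)
    have hrt : r.top ≤ t := ((le_max_left _ _).trans_lt ht).le
    have h2 := lift_le r t hrt
    exact ⟨⟨lift r t hrt, h2.trans (hr.trans hx)⟩, h2.trans hr, b, hb,
      (le_max_right _ _).trans_lt ht, nr9_meets_mono h2 hrb⟩
  obtain ⟨f, hf0, hf⟩ := nr9_seq _ hstep ⟨q, le_rfl⟩
  have hQ : ∀ n, (f (n + 1)).1 ≤ (f n).1 := fun n => (hf n).1
  choose c hc1 hc2 hc3 using fun n => (hf n).2
  have hlt : ∀ n, (f n).1.top < (f (n + 1)).1.top := fun n => (hc1 n).trans (hc2 n)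
  obtain ⟨d, hd1, hd2'⟩ := WellFounded.has_min (wellFounded_lt (α := W))
    {x | ∀ n, (f n).1.top < x} (hu _)
  have hd2 : ∀ x, (∀ n, (f n).1.top < x) → d ≤ x := fun x hx => not_lt.1 (hd2' x hx)
  have hbelow : ∀ a, a < d → ∃ n, a < (f n).1.top := by
    intro a ha
    by_contra hcon
    push Not at hcon
    exact absurd (hd2 a fun n => (hlt n).trans_le (hcon (n + 1))) (not_le.2 ha)
  have hdl : IsLim d := by
    refine ⟨⟨_, hd1 0⟩, fun a ha => ?_⟩
    obtain ⟨n, hn⟩ := hbelow a ha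
    exact ⟨_, hn, hd1 n⟩
  obtain ⟨r, hr, hdr⟩ := nr9_lim hl (fun n => (f n).1) hQ hlt d hd1 hd2
  have hrq : r ≤ q := (hr 0).trans (f 0).2
  have hcd : ∀ n, c n < d := fun n => (hc2 n).trans (hd1 (n + 1))
  have hub : ∀ r' ≤ r, r' ∈ UnbBelow C d := by
    rintro r' hr' a r'' hr'' ⟨ha, hn⟩
    obtain ⟨n, hn'⟩ := hbelow a ha
    refine hn r'' le_rfl (nr9_fex_intro (c n) fun y hy => ⟨⟨hn'.trans (hc1 n), hcd n⟩, ?_⟩)
    exact nr9_meets_mono (hy.trans (hr''.trans (hr'.trans (hr (n + 1))))) (hc3 n)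
  have hrd : r ∈ meets (C d) :=
    nr9_mp (nr9_fnot_mono hrq (hC d)) fun r' hr' => ⟨hdl, hub r' hr'⟩
  refine hq r hrq (nr9_fex_intro d fun y hy => ⟨nr9_meets_mono hy hrd, ?_⟩)
  exact nr9_mem_meets (s := r) hdr hy

end Pool.Agent.H679NR

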