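import Mathlib
import Pool.Agent.H679NR.Lang

set_option autoImplicit false

open Set Cardinal Filter
open scoped Topology

namespace Pool.Agent.H679NR

open Pool.Agent.Helper584.RM

theorem nr6_unbBelow {W : Type} [LinearOrder W] (C : W → Set PUnit.{1}) (d : W) :
    PUnit.unit ∈ UnbBelow C d ↔ ∀ a, a < d → ∃ b, (a < b ∧ b < d) ∧ PUnit.unit ∈ C b := by
  unfold UnbBelow
  simp only [u_fall, u_fimp, u_fex, u_fand, u_meets, u_fground]

theorem nr6_unb {W : Type} [LinearOrder W] (A : W → Set PUnit.{1}) :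
    PUnit.unit ∈ Unb A ↔ ∀ a, ∃ b, a < b ∧ PUnit.unit ∈ A b := by
  unfold Unb
  simp only [u_fall, u_fex, u_fand, u_meets, u_fground]

theorem nr6_ladder {W : Type} [LinearOrder W] {s : ℕ → W} {S : ℕ → W → Set PUnit.{1}}
    (hS : ∀ n b, PUnit.unit ∈ S n b ↔ s n = b) (c : W) :
    PUnit.unit ∈ Ladder S c ↔
      (∀ n, s n < s (n + 1)) ∧ (∀ n, s n < c) ∧ ∀ a, a < c → ∃ n, a < s n := by
  unfold Ladder
  simp only [u_fall, u_fimp, u_fex, u_fand, u_meets, u_fground, hS]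
  constructor
  · rintro ⟨h1, h2, h3⟩
    refine ⟨fun n => h1 n _ _ ⟨rfl, rfl⟩, fun n => h2 n _ rfl, fun a ha => ?_⟩
    obtain ⟨n, b, hb, hab⟩ := h3 a ha
    exact ⟨n, by rw [hb]; exact hab⟩
  · rintro ⟨h1, h2, h3⟩
    refine ⟨?_, ?_, fun a ha => ?_⟩
    · rintro n a b ⟨rfl, rfl⟩
      exact h1 n
    · rintro n a rfl
      exact h2 n
    · obtain ⟨n, hn⟩ := h3 a ha
      exact ⟨n, _, rfl, hn⟩

theorem nr6_reg (W : Type) [LinearOrder W] : PUnit.unit ∈ Reg PUnit.{1} W ↔ Reg₀ W := by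
  unfold Reg Reg₀
  simp only [u_fall, u_fimp, u_fex, u_fand, u_meets, u_fground]
  refine and_congr_right fun _ => ?_
  constructor
  · intro h a f
    obtain ⟨b, hb⟩ := h a (fun x y => {_p | f x = y})
      (u_isFun.2 ⟨fun x => ⟨f x, rfl⟩, fun x y y' h1 h2 => h1.symm.trans h2⟩)
    exact ⟨b, fun x hx => hb x (f x) ⟨hx, rfl⟩⟩
  · intro h a F hF
    obtain ⟨f, hf⟩ := u_fun hF
    obtain ⟨b, hb⟩ := h a f
    refine ⟨b, fun x y hxy => ?_⟩
    rw [← (hf x y).1 hxy.2]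
    exact hb x hxy.1

theorem nr6_big (W : Type) [LinearOrder W] : PUnit.unit ∈ Big PUnit.{1} W ↔ Big₀ W := by
  unfold Big Big₀
  simp only [u_fall, u_fimp, u_fex, u_fand, u_meets, u_fground]
  constructor
  · intro h x
    obtain ⟨a, b, hab, h2⟩ := h (fun a n i => {_p | x a n = i})
      (fun a => u_isFun.2 ⟨fun n => ⟨x a n, rfl⟩, fun n i i' h1 h2 => h1.symm.trans h2⟩)
    exact ⟨a, b, hab, funext fun n => (h2 n (x a n) rfl).symm⟩
  · intro h X hX
    have h1 : ∀ a, ∃ f : ℕ → Bool, ∀ n i, PUnit.unit ∈ X a n i ↔ f n = i := fun a => u_fun (hX a)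
    choose x hx using h1
    obtain ⟨a, b, hab, h2⟩ := h x
    refine ⟨a, b, hab, fun n i hi => (hx b n i).2 ?_⟩
    rw [← h2]
    exact (hx a n i).1 hi

theorem nr6_nonRefl (W : Type) [LinearOrder W] :
    PUnit.unit ∈ NonRefl PUnit.{1} W ↔ NonRefl₀ W := by
  unfold NonRefl NonRefl₀
  simp only [u_fall, u_fimp, u_fex, u_fand, u_meets, u_fground, u_fnot, nr6_unb, nr6_unbBelow]
  constructor
  · rintro ⟨E, ⟨S, h1⟩, h2, h3⟩
    have h4 : ∀ c, ∃ f : ℕ → W, PUnit.unit ∈ E c → ∀ n b, PUnit.unit ∈ S c n b ↔ f n = b := by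
      intro c
      by_cases hc : PUnit.unit ∈ E c
      · obtain ⟨f, hf⟩ := u_fun (h1 c hc).1
        exact ⟨f, fun _ => hf⟩
      · exact ⟨fun _ => c, fun h => absurd h hc⟩
    choose s hs using h4
    refine ⟨fun c => PUnit.unit ∈ E c, s, ?_, ?_, ?_⟩
    · intro c hc
      exact (nr6_ladder (hs c hc) c).1 (h1 c hc).2
    · intro C hC hC2
      exact h2 (fun b => {_p | C b}) ⟨hC, fun d hd => hC2 d hd.1 hd.2⟩
    · intro d hd
      obtain ⟨D, hD1, hD2, hD3⟩ := h3 d hd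
      exact ⟨fun x => PUnit.unit ∈ D x, hD1, fun x hx hu => hD2 x ⟨hx, hu⟩,
        fun x hx hDx hE => hD3 x ⟨hx, hDx, hE⟩⟩
  · rintro ⟨E, s, h1, h2, h3⟩
    refine ⟨fun c => {_p | E c}, ⟨fun c n b => {_p | s c n = b}, fun c hc => ⟨?_, ?_⟩⟩, ?_, ?_⟩
    · exact u_isFun.2 ⟨fun n => ⟨s c n, rfl⟩, fun n b b' h1 h2 => h1.symm.trans h2⟩
    · exact (nr6_ladder (s := s c) (fun _ _ => Iff.rfl) c).2 (h1 c hc)
    · intro C hC
      exact h2 (fun b => PUnit.unit ∈ C b) hC.1 (fun d hd hu => hC.2 d ⟨hd, hu⟩)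
    · intro d hd
      obtain ⟨D, hD1, hD2, hD3⟩ := h3 d hd
      exact ⟨fun x => {_p | D x}, hD1, fun x hx => hD2 x hx.1 hx.2,
        fun x hx => hD3 x hx.1 hx.2.1 hx.2.2⟩

/- label nr6_. Plain proof: with the lemmas u_fnot, u_fand, u_fall, u_fimp, u_fex, u_fground, u_meets, u_isFun, u_fun, wo_iff of Pool.Agent.Helper584_RM.Lang, exactly as `cov_iff` and `sym_iff` there and as in Pool/Agent/H679DW/Trivial.lean
(a name over the trivial forcing notion of a set, relation or function is converted to the set, relation or function and back; in NonRefl the name S c is a function name only for c ∈ E; for c ∉ E take any constant sequence). -/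
theorem phi_iff (W : Type) [LinearOrder W] : PUnit.unit ∈ Phi PUnit.{1} W ↔ Phi₀ W := by
  unfold Phi Phi₀
  rw [u_fand, u_fand, u_fand, wo_iff, nr6_reg, nr6_big, nr6_nonRefl]

end Pool.Agent.H679NR
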