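import Mathlib
import Pool.Agent.Helper584_RM.Rep
import Pool.Agent.Helper584_RM.ForceSym
import Pool.Agent.H679NR.Trivial
import Pool.Agent.H679NR.Closure
import Pool.Agent.H679NR.NotCorson
import Pool.Agent.H679NR.ForceRB
import Pool.Agent.H679NR.Stat
import Pool.Agent.H679NR.Nst
import Pool.Agent.H679NR.ExW

set_option autoImplicit false

open Set Cardinal Filter
open scoped Topology

namespace Pool.Agent.H679NR

open Pool.Agent.Helper584.RM

theorem force_nonrefl {W : Type} [LinearOrder W] [WellFoundedLT W] (hl : ∀ a : W, ∃ b, a < b)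
    (hu : ∀ u : ℕ → W, ∃ b, ∀ n, u n < b) (p : Cond W) : p ∈ NonRefl (Cond W) W := by
  obtain ⟨S, hS⟩ := force_ladders (W := W)
  exact mem_fex_of fun q _ => ⟨gen, q, le_rfl, mem_fex_of fun r _ => ⟨S, r, le_rfl, hS r⟩,
    force_stat hl hu q, force_nst q⟩

/-- There is a forcing notion which forces `Phi`. -/
theorem exists_forcing : ∃ (P W : Type) (_ : Preorder P) (_ : LinearOrder W), Nonempty P ∧
    ∀ p : P, p ∈ Phi P W := by
  obtain ⟨W, iW, hwf, hl, hr, hu, hbig⟩ := exists_W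
  obtain ⟨a, -⟩ := hbig fun _ _ => true
  exact ⟨Cond W, W, inferInstance, iW, ⟨empt a⟩, fun p => ⟨force_wo p, force_reg hl hr p,
    force_big hl hr hu hbig p, force_nonrefl hl hu p⟩⟩

/-- The space, from `Phi₀`. -/
theorem plain {W : Type} [LinearOrder W] (h : Phi₀ W) :
    ∃ (X : Type) (_ : TopologicalSpace X), CompactSpace X ∧ T2Space X ∧
      (∀ A : Set X, #A ≤ 𝔠 → ∃ (T : Type) (f : ↥(closure A) → T → ℝ), Topology.IsEmbedding f ∧
        (∀ x, (Function.support (f x)).Finite) ∧ ∀ x t, |f x t| ≤ 1) ∧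
      ¬ ∃ (T : Type) (f : X → T → ℝ), Continuous f ∧ Function.Injective f ∧
        ∀ x, (Function.support (f x)).Countable := by
  obtain ⟨h1, h2, h3, E, s, hE⟩ := h
  have hwf := nr2_wf h1
  have hb := bdd_of_card h1 h2 h3
  have hu : ∀ u : ℕ → W, ∃ b, ∀ n, u n < b := by
    intro u
    obtain ⟨b, hb⟩ := hb (range u) ((mk_range_le.trans_eq mk_nat).trans aleph0_le_continuum)
    exact ⟨b, fun n => hb _ ⟨n, rfl⟩⟩
  have hc : CompactSpace (Sp E s) := isCompact_iff_compactSpace.1 (isClosed_pt hE).isCompact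
  refine ⟨Sp E s, inferInstance, hc, inferInstance, fun A hA => ?_, not_corson hE h2 hu⟩
  obtain ⟨T, f, hf, hi, hs, hb1⟩ := eberlein_closure hE h2.1 hb A hA
  have : CompactSpace ↥(closure A) := isCompact_iff_compactSpace.1 isClosed_closure.isCompact
  exact ⟨T, f, (hf.isClosedEmbedding hi).isEmbedding, hs, hb1⟩

end Pool.Agent.H679NR
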